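import Pool.Agent.N782.GN.StmB

/-!
# Project GN: the bilinear form with the kernel
-/

set_option autoImplicit false

namespace Pool.Agent.N7.GN.Bil

open Finset
open Pool.Agent.N782.GN

/-! ### the exponential -/

lemma ee_add (x y : ℝ) : ee (x + y) = ee x * ee y := by
  unfold ee
  rw [← Complex.exp_add]
  congr 1
  push_cast
  ring

lemma ee_zero : ee 0 = 1 := by
  unfold ee
  simp

lemma ee_int (k : ℤ) : ee k = 1 := by
  unfold ee
  rw [show (2 * Real.pi * Complex.I * ((k : ℝ) : ℂ) : ℂ) = k * (2 * Real.pi * Complex.I) by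
    push_cast; ring]
  exact Complex.exp_int_mul_two_pi_mul_I k

lemma norm_ee (x : ℝ) : ‖ee x‖ = 1 := by
  unfold ee
  rw [show (2 * Real.pi * Complex.I * (x : ℂ) : ℂ) = ((2 * Real.pi * x : ℝ) : ℂ) * Complex.I by
    push_cast; ring]
  exact Complex.norm_exp_ofReal_mul_I _

lemma ee_pow (x : ℝ) (n : ℕ) : ee x ^ n = ee (n * x) := by
  induction n with
  | zero => simp [ee_zero]
  | succ n ih =>
    rw [pow_succ, ih, ← ee_add]
    congr 1
    push_cast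
    ring

lemma ee_eq_one {x : ℝ} (h : ee x = 1) : ∃ k : ℤ, x = k := by
  unfold ee at h
  rw [Complex.exp_eq_one_iff] at h
  obtain ⟨k, hk⟩ := h
  refine ⟨k, ?_⟩
  have h2 : (2 * Real.pi * Complex.I : ℂ) ≠ 0 := Complex.two_pi_I_ne_zero
  have h3 : (x : ℂ) = (k : ℂ) := by
    apply mul_left_cancel₀ h2
    rw [hk]
    ring
  exact_mod_cast h3

/-- congruent numerators -/
lemma ee_congr {d : ℕ} (hd : 1 ≤ d) {a b : ℤ} (h : (d : ℤ) ∣ a - b) (l : ℤ) :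
    ee ((a : ℝ) / d * l) = ee ((b : ℝ) / d * l) := by
  obtain ⟨c, hc⟩ := h
  have hd' : (d : ℝ) ≠ 0 := by positivity
  have h1 : (a : ℝ) = b + d * c := by
    have : a = b + d * c := by linarith
    rw [this]
    push_cast
    ring
  have h2 : (a : ℝ) / d * l = (b : ℝ) / d * l + ((c * l : ℤ) : ℝ) := by
    rw [h1]
    push_cast
    field_simp
  rw [h2, ee_add, ee_int, mul_one]

lemma orth {D : ℕ} (hD : 1 ≤ D) (m : ℤ) :
    ∑ x ∈ range D, ee ((x : ℝ) / D * m) = if (D : ℤ) ∣ m then (D : ℂ) else 0 := by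
  have hD' : (D : ℝ) ≠ 0 := by positivity
  have h0 : ∀ x : ℕ, ee ((x : ℝ) / D * m) = ee ((m : ℝ) / D) ^ x := by
    intro x
    rw [ee_pow]
    congr 1
    ring
  simp only [h0]
  split_ifs with h
  · obtain ⟨c, hc⟩ := h
    have h1 : ee ((m : ℝ) / D) = 1 := by
      have : (m : ℝ) / D = (c : ℝ) := by
        rw [hc]
        push_cast
        field_simp
      rw [this, ee_int]
    simp [h1]
  · have h1 : ee ((m : ℝ) / D) ≠ 1 := by
      intro h2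
      obtain ⟨k, hk⟩ := ee_eq_one h2
      apply h
      refine ⟨k, ?_⟩
      have h3 : (m : ℝ) = D * k := by
        rw [← hk]
        field_simp
      exact_mod_cast h3
    rw [geom_sum_eq h1, ee_pow]
    have h2 : (D : ℝ) * ((m : ℝ) / D) = m := by field_simp
    rw [h2, ee_int, sub_self, zero_div]

/-! ### the exponential sums -/

/-- the exponential sum at `c` -/
noncomputable def S (I : Finset ℤ) (lam : ℤ → ℝ) (c : ℝ) : ℂ := ∑ l ∈ I, (lam l : ℂ) * ee (c * l)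

lemma S_congr (I : Finset ℤ) (lam : ℤ → ℝ) {d : ℕ} (hd : 1 ≤ d) {a b : ℤ} (h : (d : ℤ) ∣ a - b) :
    S I lam ((a : ℝ) / d) = S I lam ((b : ℝ) / d) := by
  unfold S
  exact sum_congr rfl fun l _ => by rw [ee_congr hd h l]

lemma S_le (I : Finset ℤ) {lam : ℤ → ℝ} (hl : ∀ l, |lam l| ≤ 1) (c : ℝ) :
    ‖S I lam c‖ ≤ I.card := by
  unfold S
  refine (norm_sum_le _ _).trans ?_
  rw [card_eq_sum_ones]
  push_cast
  refine sum_le_sum fun l _ => ?_
  rw [norm_mul, norm_ee, mul_one, Complex.norm_real]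
  exact hl l

/-- the reduced residues -/
def rr (d : ℕ) : Finset ℕ := (range d).filter (fun a => Nat.Coprime a d)

/-- the product of the two sums -/
noncomputable def F (I1 I2 : Finset ℤ) (lam : ℤ → ℝ) (d : ℕ) (τ : ℤ) : ℂ :=
  ∑ a ∈ rr d, S I1 lam (((-(τ * a) : ℤ) : ℝ) / d) * S I2 lam ((a : ℝ) / d)

/-- the mean square -/
noncomputable def G (I : Finset ℤ) (lam : ℤ → ℝ) (d : ℕ) : ℝ := ∑ a ∈ rr d, ‖S I lam ((a : ℝ) / d)‖ ^ 2

lemma G_nonneg (I : Finset ℤ) (lam : ℤ → ℝ) (d : ℕ) : 0 ≤ G I lam d :=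
  sum_nonneg fun _ _ => by positivity

lemma F_congr (I1 I2 : Finset ℤ) (lam : ℤ → ℝ) {d : ℕ} (hd : 1 ≤ d) {τ τ' : ℤ}
    (h : (d : ℤ) ∣ τ - τ') : F I1 I2 lam d τ = F I1 I2 lam d τ' := by
  unfold F
  refine sum_congr rfl fun a _ => ?_
  rw [S_congr I1 lam hd (a := -(τ * a)) (b := -(τ' * a))]
  obtain ⟨c, hc⟩ := h
  exact ⟨-(c * a), by linear_combination -(a : ℤ) * hc⟩

lemma F_le (I1 I2 : Finset ℤ) {lam : ℤ → ℝ} (hl : ∀ l, |lam l| ≤ 1) (d : ℕ) (τ : ℤ) :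
    ‖F I1 I2 lam d τ‖ ≤ d * (I1.card * I2.card) := by
  unfold F
  refine (norm_sum_le _ _).trans ?_
  have h1 : ∑ a ∈ rr d, ‖S I1 lam (((-(τ * a) : ℤ) : ℝ) / d) * S I2 lam ((a : ℝ) / d)‖ ≤
      ∑ _a ∈ rr d, ((I1.card : ℝ) * I2.card) := by
    refine sum_le_sum fun a _ => ?_
    rw [norm_mul]
    exact mul_le_mul (S_le I1 hl _) (S_le I2 hl _) (norm_nonneg _) (Nat.cast_nonneg _)
  refine h1.trans ?_
  rw [sum_const, nsmul_eq_mul]
  refine mul_le_mul_of_nonneg_right ?_ (by positivity)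
  have : (rr d).card ≤ (range d).card := card_filter_le _ _
  rw [card_range] at this
  exact_mod_cast this

/-- the sum over the reduced residues is invariant under multiplication by units -/
lemma G_perm (I : Finset ℤ) (lam : ℤ → ℝ) {d : ℕ} (hd : 1 ≤ d) {τ : ℤ} (hτ : IsCoprime τ (d : ℤ)) :
    ∑ a ∈ rr d, ‖S I lam (((-(τ * a) : ℤ) : ℝ) / d)‖ ^ 2 = G I lam d := by
  unfold G
  have hd0 : (0 : ℤ) < d := by exact_mod_cast hd
  have hd1 : (d : ℤ) ≠ 0 := hd0.ne'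
  -- the map
  have hlt : ∀ x : ℤ, (x % d).toNat < d := by
    intro x
    have h1 := Int.emod_nonneg x hd1
    have h2 := Int.emod_lt_of_pos x hd0
    omega
  have hcast : ∀ x : ℤ, (((x % d).toNat : ℕ) : ℤ) = x % d := fun x =>
    Int.toNat_of_nonneg (Int.emod_nonneg x hd1)
  have hcop : ∀ x : ℤ, IsCoprime x (d : ℤ) → Nat.Coprime (x % d).toNat d := by
    intro x hx
    rw [← Nat.isCoprime_iff_coprime, hcast]
    have h2 : x % d = x + d * (-(x / d)) := by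
      have := Int.emod_add_mul_ediv x d
      linarith
    rw [h2]
    exact hx.add_mul_left_left _
  obtain ⟨u, v, huv⟩ := hτ
  have hu : IsCoprime u (d : ℤ) := ⟨τ, v, by linarith⟩
  have hτ' : IsCoprime τ (d : ℤ) := ⟨u, v, huv⟩
  have key : ∀ (ρ : ℤ), IsCoprime ρ (d : ℤ) → ∀ a ∈ rr d, ((-(ρ * a)) % d).toNat ∈ rr d := by
    intro ρ hρ a ha
    unfold rr at ha ⊢
    rw [mem_filter] at ha ⊢
    refine ⟨mem_range.2 (hlt _), hcop _ ?_⟩
    have h3 : IsCoprime (a : ℤ) (d : ℤ) := Nat.isCoprime_iff_coprime.2 ha.2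
    exact (hρ.mul_left h3).neg_left
  have inv : ∀ (ρ σ : ℤ), (d : ℤ) ∣ σ * ρ - 1 → ∀ a ∈ rr d,
      ((-(σ * (((-(ρ * a)) % d).toNat : ℕ))) % d).toNat = a := by
    intro ρ σ hρσ a ha
    have ha' : a < d := mem_range.1 (mem_filter.1 ha).1
    have h1 : (-(σ * (((-(ρ * a)) % d).toNat : ℕ))) % (d : ℤ) = (a : ℤ) % d := by
      rw [hcast]
      apply Int.emod_emod_of_dvd _ dvd_rfl |>.symm.trans
      rw [Int.emod_emod_of_dvd _ dvd_rfl]
      apply Int.ModEq.eq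
      rw [Int.modEq_iff_dvd]
      have h2 := Int.emod_add_mul_ediv (-(ρ * a)) d
      obtain ⟨c, hc⟩ := hρσ
      refine ⟨-(c * a) - σ * (-(ρ * a) / d), ?_⟩
      linear_combination -(a : ℤ) * hc + σ * h2
    rw [h1, Int.emod_eq_of_lt (by positivity) (by exact_mod_cast ha')]
    simp
  refine sum_nbij' (fun a => ((-(τ * a)) % d).toNat) (fun a => ((-(u * a)) % d).toNat)
    (key τ hτ') (key u hu) (inv τ u ⟨-v, by linarith⟩) (inv u τ ⟨-v, by linarith⟩) ?_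
  intro a _
  have h4 := S_congr I lam hd (a := -(τ * a)) (b := ((((-(τ * a)) % d).toNat : ℕ) : ℤ)) (by
    rw [hcast]
    exact Int.dvd_self_sub_emod)
  rw [h4, Int.cast_natCast]

lemma F_le_G (I1 I2 : Finset ℤ) (lam : ℤ → ℝ) {d : ℕ} (hd : 1 ≤ d) {τ : ℤ}
    (hτ : IsCoprime τ (d : ℤ)) :
    ‖F I1 I2 lam d τ‖ ≤ (G I1 lam d + G I2 lam d) / 2 := by
  unfold F
  refine (norm_sum_le _ _).trans ?_
  rw [← G_perm I1 lam hd hτ]
  unfold G
  rw [← sum_add_distrib, sum_div]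
  refine sum_le_sum fun a _ => ?_
  rw [norm_mul]
  nlinarith [sq_nonneg (‖S I1 lam (((-(τ * a) : ℤ) : ℝ) / d)‖ - ‖S I2 lam ((a : ℝ) / d)‖)]

/-! ### grouping by the denominator -/

lemma group {D : ℕ} (hD : 1 ≤ D) (f : ℕ → ℕ → ℂ)
    (hf : ∀ d a g : ℕ, 1 ≤ d → 1 ≤ g → f (d * g) (a * g) = f d a) :
    ∑ x ∈ range D, f D x = ∑ d ∈ D.divisors, ∑ a ∈ rr d, f d a := by
  rw [Finset.sum_sigma']
  refine sum_bij' (fun x _ => (⟨D / Nat.gcd x D, x / Nat.gcd x D⟩ : Σ _ : ℕ, ℕ))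
    (fun p _ => p.2 * (D / p.1)) ?_ ?_ ?_ ?_ ?_
  · intro x hx
    have hx' := mem_range.1 hx
    have hg : 0 < Nat.gcd x D := Nat.gcd_pos_of_pos_right _ hD
    rw [mem_sigma]
    refine ⟨?_, ?_⟩
    · rw [Nat.mem_divisors]
      exact ⟨Nat.div_dvd_of_dvd (Nat.gcd_dvd_right x D), by omega⟩
    · unfold rr
      rw [mem_filter, mem_range]
      refine ⟨?_, Nat.coprime_div_gcd_div_gcd hg⟩
      exact Nat.div_lt_div_of_lt_of_dvd (Nat.gcd_dvd_right x D) hx'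
  · rintro ⟨d, a⟩ hp
    rw [mem_sigma] at hp
    obtain ⟨h1, h2⟩ := hp
    have h1' := Nat.dvd_of_mem_divisors h1
    unfold rr at h2
    rw [mem_filter, mem_range] at h2
    rw [mem_range]
    have hpos : 0 < D / d := Nat.div_pos (Nat.le_of_dvd hD h1') (Nat.pos_of_dvd_of_pos h1' hD)
    calc a * (D / d) < d * (D / d) := Nat.mul_lt_mul_of_pos_right h2.1 hpos
      _ = D := Nat.mul_div_cancel' h1'
  · intro x _
    have hg : 0 < Nat.gcd x D := Nat.gcd_pos_of_pos_right _ hD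
    show x / Nat.gcd x D * (D / (D / Nat.gcd x D)) = x
    rw [Nat.div_div_self (Nat.gcd_dvd_right x D) (by omega)]
    exact Nat.div_mul_cancel (Nat.gcd_dvd_left x D)
  · rintro ⟨d, a⟩ hp
    rw [mem_sigma] at hp
    obtain ⟨h1, h2⟩ := hp
    have h1' : d ∣ D := Nat.dvd_of_mem_divisors h1
    unfold rr at h2
    rw [mem_filter, mem_range] at h2
    have hdpos : 0 < d := Nat.pos_of_dvd_of_pos h1' hD
    have hpos : 0 < D / d := Nat.div_pos (Nat.le_of_dvd hD h1') hdpos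
    have hgcd : Nat.gcd (a * (D / d)) D = D / d := by
      obtain ⟨e, he⟩ := h1'
      rw [he, Nat.mul_div_cancel_left _ hdpos, Nat.gcd_mul_right]
      have := h2.2
      unfold Nat.Coprime at this
      rw [this, one_mul]
    simp only [hgcd]
    rw [Nat.div_div_self h1' (by omega), Nat.mul_div_cancel _ hpos]
  · intro x _
    have hg : 0 < Nat.gcd x D := Nat.gcd_pos_of_pos_right _ hD
    have hd : 1 ≤ D / Nat.gcd x D := Nat.div_pos (Nat.le_of_dvd hD (Nat.gcd_dvd_right x D)) hg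
    have h := hf (D / Nat.gcd x D) (x / Nat.gcd x D) (Nat.gcd x D) hd hg
    rw [Nat.div_mul_cancel (Nat.gcd_dvd_right x D), Nat.div_mul_cancel (Nat.gcd_dvd_left x D)] at h
    exact h

/-! ### the number of the pairs by additive characters -/

lemma A2_eq {w1 w2 : ZI} (h0 : dl w1 w2 ≠ 0) {t : ℤ}
    (ht : ∀ l1 l2 : ℤ, (∃ v : ZI, (w1 * v).re = l1 ∧ (w2 * v).re = l2) ↔ dl w1 w2 ∣ l2 - t * l1)
    (lam : ℤ → ℝ) (I1 I2 : Finset ℤ) :
    (((|(dl w1 w2 : ℝ)| * A2 lam I1 I2 w1 w2 : ℝ)) : ℂ) =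
      ∑ d ∈ (dl w1 w2).natAbs.divisors, F I1 I2 lam d t := by
  set D := (dl w1 w2).natAbs with hDdef
  have hD : 1 ≤ D := Int.natAbs_pos.2 h0
  have hDr : |(dl w1 w2 : ℝ)| = (D : ℝ) := by
    rw [hDdef, Nat.cast_natAbs, Int.cast_abs]
  have hDne : (D : ℝ) ≠ 0 := by positivity
  have h1 : ∑ d ∈ D.divisors, F I1 I2 lam d t =
      ∑ x ∈ range D, S I1 lam (((-(t * x) : ℤ) : ℝ) / D) * S I2 lam ((x : ℝ) / D) := by
    unfold F
    rw [← group hD (fun d a => S I1 lam (((-(t * a) : ℤ) : ℝ) / d) * S I2 lam ((a : ℝ) / d))]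
    intro d a g hd hg
    have hd' : (d : ℝ) ≠ 0 := by positivity
    have hg' : (g : ℝ) ≠ 0 := by positivity
    have e1 : ((-(t * ((a * g : ℕ) : ℤ)) : ℤ) : ℝ) / ((d * g : ℕ) : ℝ) =
        ((-(t * a) : ℤ) : ℝ) / d := by
      push_cast
      field_simp
    have e2 : ((a * g : ℕ) : ℝ) / ((d * g : ℕ) : ℝ) = (a : ℝ) / d := by
      push_cast
      field_simp
    show S I1 lam (((-(t * ((a * g : ℕ) : ℤ)) : ℤ) : ℝ) / ((d * g : ℕ) : ℝ)) *
      S I2 lam (((a * g : ℕ) : ℝ) / ((d * g : ℕ) : ℝ)) = _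
    rw [e1, e2]
  rw [h1, hDr]
  have h2 : ∀ x ∈ range D, S I1 lam (((-(t * x) : ℤ) : ℝ) / D) * S I2 lam ((x : ℝ) / D) =
      ∑ l1 ∈ I1, ∑ l2 ∈ I2, ((lam l1 : ℂ) * (lam l2 : ℂ)) * ee ((x : ℝ) / D * ((l2 - t * l1 : ℤ) : ℝ)) := by
    intro x _
    unfold S
    rw [sum_mul_sum]
    refine sum_congr rfl fun l1 _ => sum_congr rfl fun l2 _ => ?_
    have e3 : (x : ℝ) / D * ((l2 - t * l1 : ℤ) : ℝ) =
        ((-(t * x) : ℤ) : ℝ) / D * l1 + (x : ℝ) / D * l2 := by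
      push_cast
      ring
    rw [e3, ee_add]
    ring
  rw [sum_congr rfl h2, sum_comm]
  unfold A2
  push_cast
  rw [mul_sum]
  refine sum_congr rfl fun l1 _ => ?_
  rw [sum_comm, mul_sum]
  refine sum_congr rfl fun l2 _ => ?_
  have ho := orth hD (l2 - t * l1)
  push_cast at ho
  rw [← mul_sum, ho]
  have hdvd : ((D : ℤ) ∣ l2 - t * l1) ↔ ∃ v : ZI, (w1 * v).re = l1 ∧ (w2 * v).re = l2 := by
    rw [ht l1 l2, hDdef, Int.natAbs_dvd]
  by_cases hc : ∃ v : ZI, (w1 * v).re = l1 ∧ (w2 * v).re = l2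
  · rw [if_pos hc, if_pos (hdvd.2 hc)]
    push_cast
    ring
  · rw [if_neg hc, if_neg (fun h => hc (hdvd.1 h))]
    simp

/-! ### divisibility in the ring of Gaussian integers -/

lemma dvd_iff (d : ℕ) (z : ZI) : ((d : ℕ) : ZI) ∣ z ↔ (d : ℤ) ∣ z.re ∧ (d : ℤ) ∣ z.im := by
  rw [← Zsqrtd.intCast_dvd, Int.cast_natCast]

lemma dvd_chr {w1 w2 : ZI} (hp : ct w1 = 1) {t : ℤ} (ht : ((dl w1 w2 : ℤ) : ZI) ∣ w2 - (t : ZI) * w1)
    {d : ℕ} (τ : ℤ) :
    ((d : ℕ) : ZI) ∣ w2 - (τ : ZI) * w1 ↔ (d : ℤ) ∣ dl w1 w2 ∧ (d : ℤ) ∣ t - τ := by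
  rw [dvd_iff]
  rw [Zsqrtd.intCast_dvd] at ht
  simp only [Zsqrtd.re_sub, Zsqrtd.im_sub, Zsqrtd.re_mul, Zsqrtd.im_mul, Zsqrtd.re_intCast,
    Zsqrtd.im_intCast] at ht ⊢
  constructor
  · rintro ⟨⟨a, ha⟩, b, hb⟩
    have hΔ : (d : ℤ) ∣ dl w1 w2 := by
      refine ⟨w1.re * b - w1.im * a, ?_⟩
      unfold dl
      linear_combination w1.re * hb - w1.im * ha
    refine ⟨hΔ, ?_⟩
    obtain ⟨⟨a', ha'⟩, b', hb'⟩ := ht
    obtain ⟨c, hc⟩ := hΔ
    have hg : Int.gcd w1.re w1.im = 1 := hp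
    obtain ⟨x, y, hxy⟩ := Int.isCoprime_iff_gcd_eq_one.2 hg
    rw [hc] at ha' hb'
    refine ⟨x * (a - c * a') + y * (b - c * b'), ?_⟩
    linear_combination x * (ha - ha') + y * (hb - hb') + (t - τ) * (-hxy)
  · rintro ⟨⟨c, hc⟩, e, he⟩
    obtain ⟨⟨a', ha'⟩, b', hb'⟩ := ht
    rw [hc] at ha' hb'
    exact ⟨⟨c * a' + e * w1.re, by linear_combination ha' + w1.re * he⟩,
      ⟨c * b' + e * w1.im, by linear_combination hb' + w1.im * he⟩⟩

/-- the class of `t` is the only one with the divisibility -/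
lemma sum_tau {w1 w2 : ZI} (hp : ct w1 = 1) {t : ℤ}
    (ht : ((dl w1 w2 : ℤ) : ZI) ∣ w2 - (t : ZI) * w1) (I1 I2 : Finset ℤ) (lam : ℤ → ℝ) {d : ℕ}
    (hd : 1 ≤ d) [DecidablePred fun τ : ℕ => ((d : ℕ) : ZI) ∣ w2 - ((τ : ℤ) : ZI) * w1]
    [Decidable ((d : ℤ) ∣ dl w1 w2)] :
    ∑ τ ∈ range d, (if ((d : ℕ) : ZI) ∣ w2 - ((τ : ℤ) : ZI) * w1 then F I1 I2 lam d τ else 0) =
      if (d : ℤ) ∣ dl w1 w2 then F I1 I2 lam d t else 0 := by
  have hd0 : (0 : ℤ) < d := by exact_mod_cast hd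
  split_ifs with h
  · have hc : (((t % d).toNat : ℕ) : ℤ) = t % d := Int.toNat_of_nonneg (Int.emod_nonneg _ hd0.ne')
    have hlt : (t % d).toNat < d := by
      have h2 := Int.emod_lt_of_pos t hd0
      omega
    rw [sum_eq_single_of_mem (t % d).toNat (mem_range.2 hlt)]
    · have h3 : (d : ℤ) ∣ t - (((t % d).toNat : ℕ) : ℤ) := by
        rw [hc]
        exact Int.dvd_self_sub_emod
      rw [if_pos ((dvd_chr hp ht _).2 ⟨h, h3⟩)]
      exact (F_congr I1 I2 lam hd h3).symm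
    · intro τ hτ hne
      rw [if_neg]
      intro h4
      obtain ⟨-, h5⟩ := (dvd_chr hp ht _).1 h4
      apply hne
      have h6 : t % d = (τ : ℤ) := by
        have h7 : t % d = (τ : ℤ) % d :=
          Int.emod_eq_emod_iff_emod_sub_eq_zero.2 (Int.emod_eq_zero_of_dvd h5)
        rw [h7]
        exact Int.emod_eq_of_lt (by positivity) (by exact_mod_cast mem_range.1 hτ)
      omega
  · refine sum_eq_zero fun τ _ => ?_
    rw [if_neg]
    intro h4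
    exact h ((dvd_chr hp ht _).1 h4).1

/-- exactly one class -/
lemma sum_cls (d : ℕ) (hd : 1 ≤ d) (w : ZI)
    [∀ i j : ℕ, Decidable (((d : ℕ) : ZI) ∣ w - (⟨i, j⟩ : ZI))] :
    ∑ i ∈ range d, ∑ j ∈ range d, (if ((d : ℕ) : ZI) ∣ w - (⟨i, j⟩ : ZI) then (1 : ℝ) else 0) = 1 := by
  have hd0 : (0 : ℤ) < d := by exact_mod_cast hd
  have hc : ∀ x : ℤ, (((x % d).toNat : ℕ) : ℤ) = x % d := fun x =>
    Int.toNat_of_nonneg (Int.emod_nonneg _ hd0.ne')
  have hlt : ∀ x : ℤ, (x % d).toNat < d := by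
    intro x
    have h2 := Int.emod_lt_of_pos x hd0
    have h1 := Int.emod_nonneg x hd0.ne'
    omega
  have huniq : ∀ (x : ℤ) (i : ℕ), i < d → ((d : ℤ) ∣ x - i ↔ i = (x % d).toNat) := by
    intro x i hi
    constructor
    · intro h
      have h7 : x % d = (i : ℤ) % d :=
        Int.emod_eq_emod_iff_emod_sub_eq_zero.2 (Int.emod_eq_zero_of_dvd h)
      rw [Int.emod_eq_of_lt (by positivity : (0 : ℤ) ≤ i) (by exact_mod_cast hi)] at h7
      omega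
    · rintro rfl
      rw [hc]
      exact Int.dvd_self_sub_emod
  rw [sum_eq_single_of_mem (w.re % d).toNat (mem_range.2 (hlt _)),
    sum_eq_single_of_mem (w.im % d).toNat (mem_range.2 (hlt _)), if_pos]
  · rw [dvd_iff]
    exact ⟨(huniq _ _ (hlt _)).2 rfl, (huniq _ _ (hlt _)).2 rfl⟩
  · intro j hj hne
    rw [if_neg]
    intro h
    rw [dvd_iff] at h
    exact hne ((huniq _ _ (mem_range.1 hj)).1 h.2)
  · intro i hi hne
    refine sum_eq_zero fun j _ => ?_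
    rw [if_neg]
    intro h
    rw [dvd_iff] at h
    exact hne ((huniq _ _ (mem_range.1 hi)).1 h.1)

end Pool.Agent.N7.GN.Bil
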