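import Pool.Agent.N7.GN.Bil

/-!
# Project GN: the bilinear form with the kernel, end of the proof
-/

set_option autoImplicit false

namespace Pool.Agent.N7.GN.Bil

open Finset
open Pool.Agent.N782.GN

lemma dlc_eq (w1 w2 : ZI) : dlc (w1 : ℂ) (w2 : ℂ) = (dl w1 w2 : ℝ) := by
  unfold dlc dl
  rw [Complex.mul_im, Complex.conj_re, Complex.conj_im, ← GaussianInt.intCast_re,
    ← GaussianInt.intCast_re, ← GaussianInt.intCast_im, ← GaussianInt.intCast_im]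
  push_cast
  ring

lemma norm_sq_eq (w : ZI) : ‖(w : ℂ)‖ ^ 2 = nz w := by
  rw [nz_eq, ← Complex.normSq_eq_norm_sq, Complex.normSq_apply, ← GaussianInt.intCast_re,
    ← GaussianInt.intCast_im]
  ring

lemma mem_cw {R : ℝ} {w : ZI} (h : w ∈ cw R) :
    R ^ 2 < nz w ∧ nz w ≤ 4 * R ^ 2 ∧ ct w = 1 := by
  unfold cw at h
  rw [mem_filter, mem_bl] at h
  exact ⟨h.2.1, h.1.2, h.2.2⟩

lemma norm_cw {R : ℝ} (hR : 1 ≤ R) {w : ZI} (h : w ∈ cw R) :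
    R ≤ ‖(w : ℂ)‖ ∧ ‖(w : ℂ)‖ ≤ 2 * R := by
  obtain ⟨h1, h2, -⟩ := mem_cw h
  rw [← norm_sq_eq] at h1 h2
  constructor
  · exact (abs_le_of_sq_le_sq' h1.le (norm_nonneg _)).2
  · refine (abs_le_of_sq_le_sq' (a := ‖(w : ℂ)‖) (b := 2 * R) ?_ (by linarith)).2
    rw [mul_pow]
    linarith

/-! ### the large moduli -/

open Classical in
lemma harm {d X : ℕ} (hd : 1 ≤ d) :
    ∑ D ∈ (Icc 1 X).filter (fun D => d ∣ D), (1 / (D : ℝ)) ≤ 1 / (d : ℝ) * (1 + Real.log X) := by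
  have h1 : ∀ D ∈ (Icc 1 X).filter (fun D => d ∣ D),
      (1 / (D : ℝ)) = (1 / (d : ℝ)) * (1 / ((D / d : ℕ) : ℝ)) := by
    intro D hD
    rw [mem_filter, mem_Icc] at hD
    obtain ⟨e, he⟩ := hD.2
    have he0 : e ≠ 0 := by
      rintro rfl
      omega
    have hd' : (d : ℝ) ≠ 0 := by positivity
    have he' : (e : ℝ) ≠ 0 := by positivity
    rw [he, Nat.mul_div_cancel_left _ (by omega)]
    push_cast
    field_simp
  rw [sum_congr rfl h1, ← mul_sum]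
  refine mul_le_mul_of_nonneg_left ?_ (by positivity)
  have h2 : Set.InjOn (fun D => D / d) ((Icc 1 X).filter (fun D => d ∣ D) : Finset ℕ) := by
    intro a ha b hb hab
    rw [mem_coe, mem_filter] at ha hb
    have h3 := Nat.div_mul_cancel ha.2
    have h4 := Nat.div_mul_cancel hb.2
    simp only at hab
    rw [← h3, ← h4, hab]
  rw [← sum_image (f := fun e : ℕ => 1 / (e : ℝ)) h2]
  have h3 : ((Icc 1 X).filter (fun D => d ∣ D)).image (fun D => D / d) ⊆ Icc 1 X := by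
    intro e he
    rw [mem_image] at he
    obtain ⟨D, hD, rfl⟩ := he
    rw [mem_filter, mem_Icc] at hD
    rw [mem_Icc]
    exact ⟨Nat.div_pos (Nat.le_of_dvd (by omega) hD.2) (by omega), (Nat.div_le_self D d).trans hD.1.2⟩
  refine (sum_le_sum_of_subset_of_nonneg h3 fun _ _ _ => by positivity).trans ?_
  have h4 := harmonic_le_one_add_log X
  have h5 : ((harmonic X : ℚ) : ℝ) = ∑ e ∈ Icc 1 X, 1 / (e : ℝ) := by
    rw [harmonic_eq_sum_Icc]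
    push_cast
    exact sum_congr rfl fun e _ => by rw [one_div]
  rw [← h5]
  exact h4

open Classical in
/-- the sum over the determinants -/
lemma sum_H {Q X : ℕ} (g : ℕ → ℝ) (hg : ∀ d, 0 ≤ g d) :
    ∑ D ∈ Icc 1 X, (1 / (D : ℝ)) * ∑ d ∈ D.divisors.filter (fun d => Q < d), g d ≤
      (1 + Real.log X) * ∑ d ∈ Ioc Q X, (1 / (d : ℝ)) * g d := by
  have h1 : ∀ D ∈ Icc 1 X, (1 / (D : ℝ)) * ∑ d ∈ D.divisors.filter (fun d => Q < d), g d =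
      ∑ d ∈ Ioc Q X, if d ∣ D then (1 / (D : ℝ)) * g d else 0 := by
    intro D hD
    rw [mem_Icc] at hD
    rw [mul_sum, ← sum_filter]
    refine sum_congr ?_ fun _ _ => rfl
    ext d
    rw [mem_filter, Nat.mem_divisors, mem_filter, mem_Ioc]
    constructor
    · rintro ⟨⟨h2, h3⟩, h4⟩
      exact ⟨⟨h4, (Nat.le_of_dvd (by omega) h2).trans hD.2⟩, h2⟩
    · rintro ⟨⟨h2, h3⟩, h4⟩
      exact ⟨⟨h4, by omega⟩, h2⟩
  rw [sum_congr rfl h1, sum_comm, mul_sum]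
  refine sum_le_sum fun d hd => ?_
  rw [mem_Ioc] at hd
  rw [← sum_filter, ← sum_mul]
  have h2 := harm (d := d) (X := X) (by omega)
  calc (∑ D ∈ (Icc 1 X).filter (fun D => d ∣ D), 1 / (D : ℝ)) * g d
      ≤ (1 / (d : ℝ) * (1 + Real.log X)) * g d := mul_le_mul_of_nonneg_right h2 (hg d)
    _ = _ := by ring

open Classical in
/-- counting the pairs with a given determinant -/
lemma sum_pairs {R C : ℝ} (hC : 0 ≤ C) (h1 : ((cw R).card : ℝ) ≤ C * R ^ 2)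
    (h2 : ∀ w ∈ cw R, ∀ D : ℤ, (((cw R).filter (fun w2 => dl w w2 = D)).card : ℝ) ≤ C)
    (X : ℕ) (H : ℕ → ℝ) (hH : ∀ D, 0 ≤ H D) :
    ∑ w1 ∈ cw R, ∑ w2 ∈ cw R, (if 1 ≤ (dl w1 w2).natAbs ∧ (dl w1 w2).natAbs ≤ X then
      H (dl w1 w2).natAbs else 0) ≤ C * R ^ 2 * (2 * C * ∑ D ∈ Icc 1 X, H D) := by
  have key : ∀ w ∈ cw R, ∑ w2 ∈ cw R, (if 1 ≤ (dl w w2).natAbs ∧ (dl w w2).natAbs ≤ X then
      H (dl w w2).natAbs else 0) ≤ 2 * C * ∑ D ∈ Icc 1 X, H D := by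
    intro w hw
    have h3 : ∀ w2 ∈ cw R, (if 1 ≤ (dl w w2).natAbs ∧ (dl w w2).natAbs ≤ X then
        H (dl w w2).natAbs else 0) = ∑ D ∈ Icc 1 X, if (dl w w2).natAbs = D then H D else 0 := by
      intro w2 _
      rw [sum_ite_eq]
      simp only [mem_Icc]
    rw [sum_congr rfl h3, sum_comm, mul_sum]
    refine sum_le_sum fun D _ => ?_
    rw [← sum_filter, sum_const, nsmul_eq_mul]
    refine mul_le_mul_of_nonneg_right ?_ (hH D)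
    have h4 : (cw R).filter (fun w2 => (dl w w2).natAbs = D) ⊆
        (cw R).filter (fun w2 => dl w w2 = (D : ℤ)) ∪ (cw R).filter (fun w2 => dl w w2 = -(D : ℤ)) := by
      intro w2 hw2
      rw [mem_filter] at hw2
      rw [mem_union, mem_filter, mem_filter]
      rcases Int.natAbs_eq (dl w w2) with h5 | h5
      · left
        exact ⟨hw2.1, by omega⟩
      · right
        exact ⟨hw2.1, by omega⟩
    have h5 := (card_le_card h4).trans (card_union_le _ _)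
    have h6 : (((cw R).filter (fun w2 => (dl w w2).natAbs = D)).card : ℝ) ≤
        ((cw R).filter (fun w2 => dl w w2 = (D : ℤ))).card +
        ((cw R).filter (fun w2 => dl w w2 = -(D : ℤ))).card := by exact_mod_cast h5
    have h7 := h2 w hw D
    have h8 := h2 w hw (-D)
    linarith
  refine (sum_le_sum key).trans ?_
  rw [sum_const, nsmul_eq_mul]
  refine mul_le_mul_of_nonneg_right h1 ?_
  exact mul_nonneg (by linarith) (sum_nonneg fun D _ => hH D)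

/-! ### the small moduli -/

open Classical in
/-- the bilinear form over one class of `t` -/
lemma small {C R κ₀ κ₁ s δ η E : ℝ} {K : ℂ → ℂ → ℝ}
    (hK : ∀ β1 β2 : ZI → ℝ, (∀ w, |β1 w| ≤ 1) → (∀ w, |β2 w| ≤ 1) →
      (∀ Y1 Y2 : ℝ, R ^ 2 ≤ Y1 → Y1 ≤ Y2 → Y2 ≤ 4 * R ^ 2 →
        ∫ x in (0 : ℝ)..(2 * Real.pi), (∑ t ∈ (cw R).filter (fun t => Y1 < nz t ∧ nz t ≤ Y2), β1 t * sc δ x t) ^ 2 ≤ E) →
      (∀ Y1 Y2 : ℝ, R ^ 2 ≤ Y1 → Y1 ≤ Y2 → Y2 ≤ 4 * R ^ 2 →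
        ∫ x in (0 : ℝ)..(2 * Real.pi), (∑ t ∈ (cw R).filter (fun t => Y1 < nz t ∧ nz t ≤ Y2), β2 t * sc δ x t) ^ 2 ≤ E) →
      |∑ w1 ∈ cw R, ∑ w2 ∈ cw R, β1 w1 * β2 w2 * K w1 w2| ≤
        C * (κ₁ * R ^ 2 * ((s + δ) * R ^ 2 + 1) + κ₀ * s * E / (δ ^ 2 * η ^ 2)))
    {β : ZI → ℝ} (hβ : ∀ w, |β w| ≤ 1) {d : ℕ} (hd : 1 ≤ d)
    (hE : ∀ (r : ZI) (Y1 Y2 : ℝ), R ^ 2 ≤ Y1 → Y1 ≤ Y2 → Y2 ≤ 4 * R ^ 2 →
      ∫ x in (0 : ℝ)..(2 * Real.pi), (∑ t ∈ (cw R).filter (fun t => Y1 < nz t ∧ nz t ≤ Y2 ∧ ((d : ℕ) : ZI) ∣ t - r),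
        β t * sc δ x t) ^ 2 ≤ E) (τ : ℤ) :
    |∑ w1 ∈ cw R, ∑ w2 ∈ cw R, (if ((d : ℕ) : ZI) ∣ w2 - (τ : ZI) * w1 then β w1 * β w2 * K w1 w2 else 0)| ≤
      (d : ℝ) ^ 2 * (C * (κ₁ * R ^ 2 * ((s + δ) * R ^ 2 + 1) + κ₀ * s * E / (δ ^ 2 * η ^ 2))) := by
  set B := C * (κ₁ * R ^ 2 * ((s + δ) * R ^ 2 + 1) + κ₀ * s * E / (δ ^ 2 * η ^ 2)) with hB
  -- the weights
  let b : ZI → ZI → ℝ := fun r w => if ((d : ℕ) : ZI) ∣ w - r then β w else 0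
  have hb1 : ∀ r w, |b r w| ≤ 1 := by
    intro r w
    show |if ((d : ℕ) : ZI) ∣ w - r then β w else 0| ≤ 1
    split_ifs
    · exact hβ w
    · simp
  have hbE : ∀ (r : ZI) (Y1 Y2 : ℝ), R ^ 2 ≤ Y1 → Y1 ≤ Y2 → Y2 ≤ 4 * R ^ 2 →
      ∫ x in (0 : ℝ)..(2 * Real.pi), (∑ t ∈ (cw R).filter (fun t => Y1 < nz t ∧ nz t ≤ Y2), b r t * sc δ x t) ^ 2 ≤ E := by
    intro r Y1 Y2 h1 h2 h3
    refine le_trans (le_of_eq ?_) (hE r Y1 Y2 h1 h2 h3)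
    congr 1
    funext x
    congr 1
    rw [sum_filter, sum_filter]
    refine sum_congr rfl fun t _ => ?_
    show (if Y1 < nz t ∧ nz t ≤ Y2 then (if ((d : ℕ) : ZI) ∣ t - r then β t else 0) * sc δ x t else 0) = _
    by_cases h4 : ((d : ℕ) : ZI) ∣ t - r
    · by_cases h5 : Y1 < nz t ∧ nz t ≤ Y2
      · rw [if_pos h5, if_pos h4, if_pos ⟨h5.1, h5.2, h4⟩]
      · rw [if_neg h5, if_neg (fun h => h5 ⟨h.1, h.2.1⟩)]
    · by_cases h5 : Y1 < nz t ∧ nz t ≤ Y2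
      · rw [if_pos h5, if_neg h4, if_neg (fun h => h4 h.2.2), zero_mul]
      · rw [if_neg h5, if_neg (fun h => h5 ⟨h.1, h.2.1⟩)]
  have h1 : ∑ w1 ∈ cw R, ∑ w2 ∈ cw R, (if ((d : ℕ) : ZI) ∣ w2 - (τ : ZI) * w1 then β w1 * β w2 * K w1 w2 else 0) =
      ∑ i ∈ range d, ∑ j ∈ range d, ∑ w1 ∈ cw R, ∑ w2 ∈ cw R,
        b ⟨i, j⟩ w1 * b ((τ : ZI) * ⟨i, j⟩) w2 * K w1 w2 := by
    have h2 : ∀ w1 w2 : ZI, (if ((d : ℕ) : ZI) ∣ w2 - (τ : ZI) * w1 then β w1 * β w2 * K w1 w2 else 0) =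
        ∑ i ∈ range d, ∑ j ∈ range d, b ⟨i, j⟩ w1 * b ((τ : ZI) * ⟨i, j⟩) w2 * K w1 w2 := by
      intro w1 w2
      have h3 : ∀ i j : ℕ, b ⟨i, j⟩ w1 * b ((τ : ZI) * ⟨i, j⟩) w2 * K w1 w2 =
          (if ((d : ℕ) : ZI) ∣ w1 - (⟨i, j⟩ : ZI) then (1 : ℝ) else 0) *
            (if ((d : ℕ) : ZI) ∣ w2 - (τ : ZI) * w1 then β w1 * β w2 * K w1 w2 else 0) := by
        intro i j
        show (if ((d : ℕ) : ZI) ∣ w1 - (⟨i, j⟩ : ZI) then β w1 else 0) *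
          (if ((d : ℕ) : ZI) ∣ w2 - (τ : ZI) * ⟨i, j⟩ then β w2 else 0) * K w1 w2 = _
        by_cases h4 : ((d : ℕ) : ZI) ∣ w1 - (⟨i, j⟩ : ZI)
        · have h5 : ((d : ℕ) : ZI) ∣ w2 - (τ : ZI) * ⟨i, j⟩ ↔ ((d : ℕ) : ZI) ∣ w2 - (τ : ZI) * w1 := by
            have h6 : w2 - (τ : ZI) * ⟨i, j⟩ = (w2 - (τ : ZI) * w1) + (τ : ZI) * (w1 - ⟨i, j⟩) := by ring
            rw [h6]
            exact (dvd_add_left (h4.mul_left _))
          rw [if_pos h4, if_pos h4]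
          by_cases h7 : ((d : ℕ) : ZI) ∣ w2 - (τ : ZI) * w1
          · rw [if_pos h7, if_pos (h5.2 h7)]
            ring
          · rw [if_neg h7, if_neg (fun h => h7 (h5.1 h))]
            ring
        · rw [if_neg h4, if_neg h4]
          ring
      rw [sum_congr rfl fun i _ => sum_congr rfl fun j _ => h3 i j]
      simp only [← sum_mul]
      rw [sum_cls d hd w1, one_mul]
    calc _ = ∑ w1 ∈ cw R, ∑ w2 ∈ cw R, ∑ i ∈ range d, ∑ j ∈ range d,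
          b ⟨i, j⟩ w1 * b ((τ : ZI) * ⟨i, j⟩) w2 * K w1 w2 :=
        sum_congr rfl fun w1 _ => sum_congr rfl fun w2 _ => h2 w1 w2
      _ = ∑ w1 ∈ cw R, ∑ i ∈ range d, ∑ j ∈ range d, ∑ w2 ∈ cw R,
          b ⟨i, j⟩ w1 * b ((τ : ZI) * ⟨i, j⟩) w2 * K w1 w2 := by
        refine sum_congr rfl fun w1 _ => ?_
        rw [sum_comm]
        exact sum_congr rfl fun i _ => sum_comm
      _ = _ := by
        rw [sum_comm]
        exact sum_congr rfl fun i _ => sum_comm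
  rw [h1]
  refine (abs_sum_le_sum_abs _ _).trans ?_
  have h2 : ∀ i ∈ range d, |∑ j ∈ range d, ∑ w1 ∈ cw R, ∑ w2 ∈ cw R,
      b ⟨i, j⟩ w1 * b ((τ : ZI) * ⟨i, j⟩) w2 * K w1 w2| ≤ ∑ _j ∈ range d, B := by
    intro i _
    refine (abs_sum_le_sum_abs _ _).trans (sum_le_sum fun j _ => ?_)
    exact hK _ _ (hb1 _) (hb1 _) (hbE _) (hbE _)
  refine (sum_le_sum h2).trans (le_of_eq ?_)
  rw [sum_const, sum_const, card_range, nsmul_eq_mul, nsmul_eq_mul]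
  ring

end Pool.Agent.N7.GN.Bil
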