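import Pool.Agent.N7.GN.Bil2

/-!
# Project GN: the bilinear form with the kernel, the theorem
-/

set_option autoImplicit false

namespace Pool.Agent.N7.GN.Bil

open Finset
open Pool.Agent.N782.GN

lemma G_eq (x : ℤ) (n : ℕ) (lam : ℤ → ℝ) (d : ℕ) :
    G (Ioc x (x + n)) lam d = ∑ a ∈ (range d).filter (fun a => Nat.Coprime a d),
      ‖∑ l ∈ Ioc x (x + n), (lam l : ℂ) * ee (a * l / d)‖ ^ 2 := by
  unfold G rr S
  refine sum_congr rfl fun a _ => ?_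
  congr 2
  refine sum_congr rfl fun l _ => ?_
  congr 2
  ring

open Classical in
theorem bil (h1 : S_CHR) (h2 : S_CNT) (h3 : S_LSD) (h4 : S_KER) : S_BIL := by
  obtain ⟨C1, hC1, hcnt⟩ := h2
  obtain ⟨C2, hC2, hlsd⟩ := h3
  obtain ⟨C3, hC3, hker⟩ := h4
  refine ⟨2 * C1 ^ 2 * C2 + 2 * C3, by positivity, ?_⟩
  intro R κ₀ κ₁ s δ η E Q n x1 x2 K β lam hR hs hs1 hsR hδ hδ1 hη hη1 hκ₀ hκ₁ hE hQ hn hKer hKdl
    hβ hlam hEE
  obtain ⟨hc1, hc2, -⟩ := hcnt R hR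
  set I1 := Ioc x1 (x1 + (n : ℤ)) with hI1
  set I2 := Ioc x2 (x2 + (n : ℤ)) with hI2
  have hcard1 : (I1.card : ℝ) = n := by
    rw [hI1, Int.card_Ioc]
    have : (x1 + (n : ℤ) - x1).toNat = n := by omega
    rw [this]
  have hcard2 : (I2.card : ℝ) = n := by
    rw [hI2, Int.card_Ioc]
    have : (x2 + (n : ℤ) - x2).toNat = n := by omega
    rw [this]
  -- the roots
  let tt : ZI → ZI → ℤ := fun w1 w2 =>
    if h : ct w1 = 1 ∧ ct w2 = 1 ∧ dl w1 w2 ≠ 0 then (h1 w1 w2 h.1 h.2.1 h.2.2).choose else 0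
  have htt : ∀ w1 ∈ cw R, ∀ w2 ∈ cw R, dl w1 w2 ≠ 0 → IsCoprime (tt w1 w2) (dl w1 w2) ∧
      ((dl w1 w2 : ℤ) : ZI) ∣ w2 - (tt w1 w2 : ZI) * w1 ∧
      (∀ l1 l2 : ℤ, (∃ v : ZI, (w1 * v).re = l1 ∧ (w2 * v).re = l2) ↔
        dl w1 w2 ∣ l2 - tt w1 w2 * l1) := by
    intro w1 hw1 w2 hw2 h0
    have h : ct w1 = 1 ∧ ct w2 = 1 ∧ dl w1 w2 ≠ 0 := ⟨(mem_cw hw1).2.2, (mem_cw hw2).2.2, h0⟩
    have h5 := (h1 w1 w2 h.1 h.2.1 h.2.2).choose_spec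
    have h6 : tt w1 w2 = (h1 w1 w2 h.1 h.2.1 h.2.2).choose := dif_pos h
    rw [h6]
    exact ⟨h5.1, h5.2.1, h5.2.2.1⟩
  -- the two parts
  let P1 : ZI → ZI → ℂ := fun w1 w2 =>
    ∑ d ∈ (dl w1 w2).natAbs.divisors.filter (fun d => Q < d), F I1 I2 lam d (tt w1 w2)
  let P2 : ZI → ZI → ℂ := fun w1 w2 => ∑ d ∈ Icc 1 Q, ∑ τ ∈ range d,
    (if ((d : ℕ) : ZI) ∣ w2 - ((τ : ℤ) : ZI) * w1 then F I1 I2 lam d τ else 0)
  have hterm : ∀ w1 ∈ cw R, ∀ w2 ∈ cw R,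
      ((β w1 * β w2 * (|(dl w1 w2 : ℝ)| * K w1 w2) * A2 lam I1 I2 w1 w2 : ℝ) : ℂ) =
        ((β w1 * β w2 * K w1 w2 : ℝ) : ℂ) * P1 w1 w2 +
          ((β w1 * β w2 * K w1 w2 : ℝ) : ℂ) * P2 w1 w2 := by
    intro w1 hw1 w2 hw2
    by_cases h0 : dl w1 w2 = 0
    · have hK0 : K w1 w2 = 0 := hKer.zero _ _ (by rw [dlc_eq, h0, Int.cast_zero])
      rw [hK0]
      simp
    · obtain ⟨-, hdv, hlat⟩ := htt w1 hw1 w2 hw2 h0
      have h5 := A2_eq h0 hlat lam I1 I2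
      have h6 : P2 w1 w2 = ∑ d ∈ (dl w1 w2).natAbs.divisors.filter (fun d => ¬ Q < d),
          F I1 I2 lam d (tt w1 w2) := by
        have h7 : ∀ d ∈ Icc 1 Q, ∑ τ ∈ range d,
            (if ((d : ℕ) : ZI) ∣ w2 - ((τ : ℤ) : ZI) * w1 then F I1 I2 lam d τ else 0) =
            if (d : ℤ) ∣ dl w1 w2 then F I1 I2 lam d (tt w1 w2) else 0 := by
          intro d hd
          exact sum_tau (mem_cw hw1).2.2 hdv I1 I2 lam (mem_Icc.1 hd).1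
        show ∑ d ∈ Icc 1 Q, _ = _
        rw [sum_congr rfl h7, ← sum_filter]
        refine sum_congr ?_ fun _ _ => rfl
        ext d
        rw [mem_filter, mem_filter, Nat.mem_divisors, mem_Icc, Int.natCast_dvd]
        constructor
        · rintro ⟨⟨h8, h9⟩, h10⟩
          exact ⟨⟨h10, Int.natAbs_ne_zero.2 h0⟩, by omega⟩
        · rintro ⟨⟨h8, h9⟩, h10⟩
          exact ⟨⟨Nat.pos_of_dvd_of_pos h8 (Nat.pos_of_ne_zero h9), by omega⟩, h8⟩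
      have h7 : P1 w1 w2 + P2 w1 w2 = ((|(dl w1 w2 : ℝ)| * A2 lam I1 I2 w1 w2 : ℝ) : ℂ) := by
        rw [h5, h6]
        exact sum_filter_add_sum_filter_not _ _ _
      rw [← mul_add, h7]
      push_cast
      ring
  -- the first part
  set X := ⌊s * R ^ 2⌋₊ with hX
  have hX1 : 1 ≤ X := Nat.le_floor (by simpa using hsR)
  have hXle : (X : ℝ) ≤ s * R ^ 2 := Nat.floor_le (by positivity)
  let Gm : ℕ → ℝ := fun d => (G I1 lam d + G I2 lam d) / 2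
  have hGm : ∀ d, 0 ≤ Gm d := fun d => by
    have h5 := G_nonneg I1 lam d
    have h6 := G_nonneg I2 lam d
    show 0 ≤ (G I1 lam d + G I2 lam d) / 2
    linarith
  let H : ℕ → ℝ := fun D => (1 / (D : ℝ)) * ∑ d ∈ D.divisors.filter (fun d => Q < d), Gm d
  have hH : ∀ D, 0 ≤ H D := fun D =>
    mul_nonneg (by positivity) (sum_nonneg fun d _ => hGm d)
  have hpart1 : ‖∑ w1 ∈ cw R, ∑ w2 ∈ cw R, ((β w1 * β w2 * K w1 w2 : ℝ) : ℂ) * P1 w1 w2‖ ≤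
      2 * C1 ^ 2 * C2 * (R ^ 2 * (1 + Real.log (s * R ^ 2)) * (s * R ^ 2 * n + (n : ℝ) ^ 2 / Q)) := by
    have hb : ∀ w1 ∈ cw R, ∀ w2 ∈ cw R, ‖((β w1 * β w2 * K w1 w2 : ℝ) : ℂ) * P1 w1 w2‖ ≤
        if 1 ≤ (dl w1 w2).natAbs ∧ (dl w1 w2).natAbs ≤ X then H (dl w1 w2).natAbs else 0 := by
      intro w1 hw1 w2 hw2
      obtain ⟨hn1, hn2⟩ := norm_cw hR hw1
      obtain ⟨hn3, hn4⟩ := norm_cw hR hw2
      by_cases h0 : dl w1 w2 = 0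
      · have hK0 : K w1 w2 = 0 := hKer.zero _ _ (by rw [dlc_eq, h0, Int.cast_zero])
        rw [hK0, h0]
        simp
      · have hpos : 1 ≤ (dl w1 w2).natAbs := Int.natAbs_pos.2 h0
        have hDr : |(dl w1 w2 : ℝ)| = (((dl w1 w2).natAbs : ℕ) : ℝ) := by
          rw [Nat.cast_natAbs, Int.cast_abs]
        by_cases hle : (dl w1 w2).natAbs ≤ X
        · rw [if_pos ⟨hpos, hle⟩]
          obtain ⟨hcop, -, -⟩ := htt w1 hw1 w2 hw2 h0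
          have h5 := hKdl w1 w2 hn1 hn2 hn3 hn4
          rw [dlc_eq, hDr] at h5
          have hDpos : (0 : ℝ) < (((dl w1 w2).natAbs : ℕ) : ℝ) := by exact_mod_cast hpos
          have h6 : |K w1 w2| ≤ 1 / (((dl w1 w2).natAbs : ℕ) : ℝ) := by
            rw [le_div_iff₀ hDpos]
            exact h5
          rw [norm_mul, Complex.norm_real, Real.norm_eq_abs, abs_mul, abs_mul]
          have h7 : |β w1| * |β w2| * |K w1 w2| ≤ 1 / (((dl w1 w2).natAbs : ℕ) : ℝ) := by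
            have h8 : |β w1| * |β w2| ≤ 1 := mul_le_one₀ (hβ w1) (abs_nonneg _) (hβ w2)
            calc |β w1| * |β w2| * |K w1 w2| ≤ 1 * |K w1 w2| :=
                  mul_le_mul_of_nonneg_right h8 (abs_nonneg _)
              _ ≤ _ := by rw [one_mul]; exact h6
          refine mul_le_mul h7 ?_ (norm_nonneg _) (by positivity)
          refine (norm_sum_le _ _).trans (sum_le_sum fun d hd => ?_)
          rw [mem_filter, Nat.mem_divisors] at hd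
          have hd1 : 1 ≤ d := by omega
          refine F_le_G I1 I2 lam hd1 ?_
          refine hcop.of_isCoprime_of_dvd_right ?_
          exact Int.natCast_dvd.2 hd.1.1
        · have h5 : s * R ^ 2 < |dlc (w1 : ℂ) (w2 : ℂ)| := by
            rw [dlc_eq, hDr]
            rw [hX, not_le, Nat.floor_lt (by positivity)] at hle
            exact hle
          have hK0 : K w1 w2 = 0 := hKer.supp _ _ hn1 hn2 hn3 hn4 h5
          rw [hK0]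
          rw [if_neg (fun h => hle h.2)]
          simp
    have h5 : ‖∑ w1 ∈ cw R, ∑ w2 ∈ cw R, ((β w1 * β w2 * K w1 w2 : ℝ) : ℂ) * P1 w1 w2‖ ≤
        ∑ w1 ∈ cw R, ∑ w2 ∈ cw R, (if 1 ≤ (dl w1 w2).natAbs ∧ (dl w1 w2).natAbs ≤ X then
          H (dl w1 w2).natAbs else 0) := by
      refine (norm_sum_le _ _).trans (sum_le_sum fun w1 hw1 => ?_)
      exact (norm_sum_le _ _).trans (sum_le_sum fun w2 hw2 => hb w1 hw1 w2 hw2)
    have h6 := sum_pairs hC1.le hc1 hc2 X H hH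
    have h7 : ∑ D ∈ Icc 1 X, H D ≤ (1 + Real.log X) * ∑ d ∈ Ioc Q X, (1 / (d : ℝ)) * Gm d :=
      sum_H Gm hGm
    have h8 : ∑ d ∈ Ioc Q X, (1 / (d : ℝ)) * Gm d ≤ C2 * (s * R ^ 2 * n + (n : ℝ) ^ 2 / Q) := by
      have h9 := hlsd Q X n x1 lam hQ hlam
      have h10 := hlsd Q X n x2 lam hQ hlam
      simp only [← G_eq] at h9 h10
      have h11 : ∑ d ∈ Ioc Q X, (1 / (d : ℝ)) * Gm d =
          (∑ d ∈ Ioc Q X, (1 / (d : ℝ)) * G I1 lam d + ∑ d ∈ Ioc Q X, (1 / (d : ℝ)) * G I2 lam d) / 2 := by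
        rw [← sum_add_distrib, sum_div]
        refine sum_congr rfl fun d _ => ?_
        show (1 / (d : ℝ)) * ((G I1 lam d + G I2 lam d) / 2) = _
        ring
      rw [h11]
      have h12 : C2 * ((X : ℝ) * n + (n : ℝ) ^ 2 / Q) ≤ C2 * (s * R ^ 2 * n + (n : ℝ) ^ 2 / Q) := by
        have : (X : ℝ) * n ≤ s * R ^ 2 * n := mul_le_mul_of_nonneg_right hXle (Nat.cast_nonneg n)
        nlinarith
      have e1 : ∑ d ∈ Ioc Q X, (1 / (d : ℝ)) * G I1 lam d ≤ C2 * ((X : ℝ) * n + (n : ℝ) ^ 2 / Q) := h9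
      have e2 : ∑ d ∈ Ioc Q X, (1 / (d : ℝ)) * G I2 lam d ≤ C2 * ((X : ℝ) * n + (n : ℝ) ^ 2 / Q) := h10
      linarith
    have hlog0 : 0 ≤ Real.log X := Real.log_natCast_nonneg X
    have hlog : Real.log X ≤ Real.log (s * R ^ 2) :=
      Real.log_le_log (by exact_mod_cast hX1) hXle
    have h9 : ∑ D ∈ Icc 1 X, H D ≤
        (1 + Real.log (s * R ^ 2)) * (C2 * (s * R ^ 2 * n + (n : ℝ) ^ 2 / Q)) := by
      refine h7.trans ?_
      have h10 : 0 ≤ ∑ d ∈ Ioc Q X, (1 / (d : ℝ)) * Gm d :=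
        sum_nonneg fun d _ => mul_nonneg (by positivity) (hGm d)
      exact mul_le_mul (by linarith) h8 h10 (by linarith)
    refine h5.trans (h6.trans ?_)
    calc C1 * R ^ 2 * (2 * C1 * ∑ D ∈ Icc 1 X, H D)
        ≤ C1 * R ^ 2 * (2 * C1 * ((1 + Real.log (s * R ^ 2)) *
          (C2 * (s * R ^ 2 * n + (n : ℝ) ^ 2 / Q)))) := by
          refine mul_le_mul_of_nonneg_left ?_ (by positivity)
          exact mul_le_mul_of_nonneg_left h9 (by positivity)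
      _ = _ := by ring
  -- the second part
  set B := C3 * (κ₁ * R ^ 2 * ((s + δ) * R ^ 2 + 1) + κ₀ * s * E / (δ ^ 2 * η ^ 2)) with hB
  have hB0 : 0 ≤ B := by positivity
  have hpart2 : ‖∑ w1 ∈ cw R, ∑ w2 ∈ cw R, ((β w1 * β w2 * K w1 w2 : ℝ) : ℂ) * P2 w1 w2‖ ≤
      (Q : ℝ) ^ 5 * (n : ℝ) ^ 2 * B := by
    have h5 : ∑ w1 ∈ cw R, ∑ w2 ∈ cw R, ((β w1 * β w2 * K w1 w2 : ℝ) : ℂ) * P2 w1 w2 =
        ∑ d ∈ Icc 1 Q, ∑ τ ∈ range d, F I1 I2 lam d (τ : ℤ) *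
          ((∑ w1 ∈ cw R, ∑ w2 ∈ cw R, (if ((d : ℕ) : ZI) ∣ w2 - ((τ : ℤ) : ZI) * w1 then
            β w1 * β w2 * K w1 w2 else 0) : ℝ) : ℂ) := by
      have h6 : ∀ w1 w2 : ZI, ((β w1 * β w2 * K w1 w2 : ℝ) : ℂ) * P2 w1 w2 =
          ∑ d ∈ Icc 1 Q, ∑ τ ∈ range d, F I1 I2 lam d (τ : ℤ) *
            ((if ((d : ℕ) : ZI) ∣ w2 - ((τ : ℤ) : ZI) * w1 then β w1 * β w2 * K w1 w2 else 0 : ℝ) : ℂ) := by
        intro w1 w2
        show _ * ∑ d ∈ Icc 1 Q, _ = _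
        rw [mul_sum]
        refine sum_congr rfl fun d _ => ?_
        rw [mul_sum]
        refine sum_congr rfl fun τ _ => ?_
        by_cases h7 : ((d : ℕ) : ZI) ∣ w2 - ((τ : ℤ) : ZI) * w1
        · rw [if_pos h7, if_pos h7]
          ring
        · rw [if_neg h7, if_neg h7]
          simp
      calc _ = ∑ w1 ∈ cw R, ∑ w2 ∈ cw R, ∑ d ∈ Icc 1 Q, ∑ τ ∈ range d, F I1 I2 lam d (τ : ℤ) *
            ((if ((d : ℕ) : ZI) ∣ w2 - ((τ : ℤ) : ZI) * w1 then β w1 * β w2 * K w1 w2 else 0 : ℝ) : ℂ) :=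
          sum_congr rfl fun w1 _ => sum_congr rfl fun w2 _ => h6 w1 w2
        _ = ∑ w1 ∈ cw R, ∑ d ∈ Icc 1 Q, ∑ τ ∈ range d, ∑ w2 ∈ cw R, F I1 I2 lam d (τ : ℤ) *
            ((if ((d : ℕ) : ZI) ∣ w2 - ((τ : ℤ) : ZI) * w1 then β w1 * β w2 * K w1 w2 else 0 : ℝ) : ℂ) := by
          refine sum_congr rfl fun w1 _ => ?_
          rw [sum_comm]
          exact sum_congr rfl fun d _ => sum_comm
        _ = ∑ d ∈ Icc 1 Q, ∑ τ ∈ range d, ∑ w1 ∈ cw R, ∑ w2 ∈ cw R, F I1 I2 lam d (τ : ℤ) *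
            ((if ((d : ℕ) : ZI) ∣ w2 - ((τ : ℤ) : ZI) * w1 then β w1 * β w2 * K w1 w2 else 0 : ℝ) : ℂ) := by
          rw [sum_comm]
          exact sum_congr rfl fun d _ => sum_comm
        _ = _ := by
          refine sum_congr rfl fun d _ => sum_congr rfl fun τ _ => ?_
          push_cast
          rw [mul_sum]
          refine sum_congr rfl fun w1 _ => ?_
          rw [mul_sum]
    rw [h5]
    have h6 : ∀ d ∈ Icc 1 Q, ∀ τ ∈ range d, ‖F I1 I2 lam d (τ : ℤ) *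
          ((∑ w1 ∈ cw R, ∑ w2 ∈ cw R, (if ((d : ℕ) : ZI) ∣ w2 - ((τ : ℤ) : ZI) * w1 then
            β w1 * β w2 * K w1 w2 else 0) : ℝ) : ℂ)‖ ≤ (Q : ℝ) ^ 3 * (n : ℝ) ^ 2 * B := by
      intro d hd τ _
      rw [mem_Icc] at hd
      have hdQ : (d : ℝ) ≤ Q := by exact_mod_cast hd.2
      rw [norm_mul, Complex.norm_real, Real.norm_eq_abs]
      have h7 := F_le I1 I2 hlam d (τ : ℤ)
      rw [hcard1, hcard2] at h7
      have h8 : |∑ w1 ∈ cw R, ∑ w2 ∈ cw R, (if ((d : ℕ) : ZI) ∣ w2 - ((τ : ℤ) : ZI) * w1 then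
          β w1 * β w2 * K w1 w2 else 0)| ≤ (d : ℝ) ^ 2 * B := by
        refine small (C := C3) (R := R) (κ₀ := κ₀) (κ₁ := κ₁) (s := s) (δ := δ) (η := η) (E := E)
          (K := K) ?_ hβ hd.1 ?_ (τ : ℤ)
        · intro β1 β2 hβ1 hβ2 hI hJ
          exact hker R κ₀ κ₁ s δ η E K β1 β2 hR hs hs1 hδ hδ1 hη hη1 hκ₀ hκ₁ hE hKer hβ1 hβ2 hI hJ
        · intro r Y1 Y2 hY1 hY2 hY3
          exact hEE d r Y1 Y2 hd.1 hd.2 hY1 hY2 hY3
      calc _ ≤ ((d : ℝ) * ((n : ℝ) * n)) * ((d : ℝ) ^ 2 * B) :=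
            mul_le_mul h7 h8 (abs_nonneg _) (by positivity)
        _ = (d : ℝ) ^ 3 * ((n : ℝ) ^ 2 * B) := by ring
        _ ≤ (Q : ℝ) ^ 3 * ((n : ℝ) ^ 2 * B) := by
            refine mul_le_mul_of_nonneg_right ?_ (by positivity)
            exact pow_le_pow_left₀ (Nat.cast_nonneg d) hdQ 3
        _ = _ := by ring
    refine (norm_sum_le _ _).trans ?_
    have h7 : ∀ d ∈ Icc 1 Q, ‖∑ τ ∈ range d, F I1 I2 lam d (τ : ℤ) *
          ((∑ w1 ∈ cw R, ∑ w2 ∈ cw R, (if ((d : ℕ) : ZI) ∣ w2 - ((τ : ℤ) : ZI) * w1 then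
            β w1 * β w2 * K w1 w2 else 0) : ℝ) : ℂ)‖ ≤ (Q : ℝ) * ((Q : ℝ) ^ 3 * (n : ℝ) ^ 2 * B) := by
      intro d hd
      refine (norm_sum_le _ _).trans ((sum_le_sum (h6 d hd)).trans ?_)
      rw [sum_const, card_range, nsmul_eq_mul]
      refine mul_le_mul_of_nonneg_right ?_ (by positivity)
      exact_mod_cast (mem_Icc.1 hd).2
    refine (sum_le_sum h7).trans (le_of_eq ?_)
    rw [sum_const, Nat.card_Icc, nsmul_eq_mul]
    have : ((Q + 1 - 1 : ℕ) : ℝ) = Q := by norm_num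
    rw [this]
    ring
  -- conclusion
  have hB1 : B ≤ 2 * C3 * (κ₁ * R ^ 2 * ((s + δ) * R ^ 2) + κ₀ * s * E / (δ ^ 2 * η ^ 2)) := by
    have h5 : 1 ≤ (s + δ) * R ^ 2 := by nlinarith [sq_nonneg R]
    have h6 : κ₁ * R ^ 2 * ((s + δ) * R ^ 2 + 1) ≤ κ₁ * R ^ 2 * (2 * ((s + δ) * R ^ 2)) :=
      mul_le_mul_of_nonneg_left (by linarith) (by positivity)
    have h7 : 0 ≤ κ₀ * s * E / (δ ^ 2 * η ^ 2) := by positivity
    rw [hB]
    nlinarith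
  have hlog1 : 0 ≤ Real.log (s * R ^ 2) := Real.log_nonneg hsR
  have hfin : |∑ w1 ∈ cw R, ∑ w2 ∈ cw R, β w1 * β w2 * (|(dl w1 w2 : ℝ)| * K w1 w2) *
      A2 lam I1 I2 w1 w2| =
      ‖∑ w1 ∈ cw R, ∑ w2 ∈ cw R, ((β w1 * β w2 * K w1 w2 : ℝ) : ℂ) * P1 w1 w2 +
        ∑ w1 ∈ cw R, ∑ w2 ∈ cw R, ((β w1 * β w2 * K w1 w2 : ℝ) : ℂ) * P2 w1 w2‖ := by
    rw [← Real.norm_eq_abs, ← Complex.norm_real, ← sum_add_distrib]
    congr 1
    rw [Complex.ofReal_sum]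
    refine sum_congr rfl fun w1 hw1 => ?_
    rw [Complex.ofReal_sum, ← sum_add_distrib]
    exact sum_congr rfl fun w2 hw2 => hterm w1 hw1 w2 hw2
  rw [hfin]
  refine (norm_add_le _ _).trans ?_
  have h5 : (Q : ℝ) ^ 5 * (n : ℝ) ^ 2 * B ≤ (Q : ℝ) ^ 5 * (n : ℝ) ^ 2 *
      (2 * C3 * (κ₁ * R ^ 2 * ((s + δ) * R ^ 2) + κ₀ * s * E / (δ ^ 2 * η ^ 2))) :=
    mul_le_mul_of_nonneg_left hB1 (by positivity)
  have h6 : 0 ≤ R ^ 2 * (1 + Real.log (s * R ^ 2)) * (s * R ^ 2 * n + (n : ℝ) ^ 2 / Q) := by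
    positivity
  have h7 : 0 ≤ (Q : ℝ) ^ 5 * (n : ℝ) ^ 2 *
      (κ₁ * R ^ 2 * ((s + δ) * R ^ 2) + κ₀ * s * E / (δ ^ 2 * η ^ 2)) := by positivity
  have h8 : 0 ≤ 2 * C1 ^ 2 * C2 := by positivity
  nlinarith [hpart1, hpart2, h5, mul_nonneg h8 h7, mul_nonneg (by positivity : 0 ≤ 2 * C3) h6]

end Pool.Agent.N7.GN.Bil
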