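import Pool.Agent.N782.GN.StmT
import Pool.Agent.Helper112.LS

/-!
# Project GN: the roots `ν`, the large sieve for the fractions `ν / N(a)`
-/

set_option autoImplicit false

namespace Pool.Agent.N7.GN.Rls

open Finset
open Pool.Agent.N782.GN

/-! ### the roots -/

lemma norm_eq (a : ZI) : Zsqrtd.norm a = a.re ^ 2 + a.im ^ 2 := by
  rw [Zsqrtd.norm_def]
  ring

lemma norm_pos {a : ZI} (h : ct a = 1) : 0 < Zsqrtd.norm a := by
  rw [GaussianInt.norm_pos]
  rintro rfl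
  simp [ct] at h

/-- divisibility by the norm -/
lemma dvd_iff_conj {a : ZI} (h : ct a = 1) (z : ZI) :
    a ∣ z ↔ Zsqrtd.norm a ∣ a.re * z.re + a.im * z.im ∧ Zsqrtd.norm a ∣ a.re * z.im - a.im * z.re := by
  have hn : (Zsqrtd.norm a : ℤ) ≠ 0 := (norm_pos h).ne'
  constructor
  · rintro ⟨w, rfl⟩
    rw [norm_eq]
    simp only [Zsqrtd.re_mul, Zsqrtd.im_mul]
    exact ⟨⟨w.re, by ring⟩, ⟨w.im, by ring⟩⟩
  · rintro ⟨⟨x, hx⟩, y, hy⟩
    refine ⟨⟨x, y⟩, ?_⟩
    rw [norm_eq] at hx hy hn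
    apply Zsqrtd.ext
    · simp only [Zsqrtd.re_mul]
      apply mul_left_cancel₀ hn
      linear_combination a.re * hx - a.im * hy
    · simp only [Zsqrtd.im_mul]
      apply mul_left_cancel₀ hn
      linear_combination a.im * hx + a.re * hy

lemma ex_nu {a : ZI} (h : ct a = 1) :
    ∃ ν : ℤ, ∀ l m : ℤ, a ∣ (⟨l, m⟩ : ZI) ↔ Zsqrtd.norm a ∣ m - ν * l := by
  have hc : IsCoprime a.re a.im := Int.isCoprime_iff_gcd_eq_one.2 h
  have hc2 : IsCoprime a.re (Zsqrtd.norm a) := by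
    rw [norm_eq]
    have h1 : a.re ^ 2 + a.im ^ 2 = a.im ^ 2 + a.re * a.re := by ring
    rw [h1]
    exact (hc.pow_right).add_mul_left_right _
  obtain ⟨x, y, hxy⟩ := hc2
  refine ⟨a.im * x, fun l m => ?_⟩
  rw [dvd_iff_conj h]
  simp only
  have hN := norm_eq a
  constructor
  · rintro ⟨-, c, hc'⟩
    refine ⟨x * c + y * m, ?_⟩
    linear_combination x * hc' - m * hxy
  · rintro ⟨c, hc'⟩
    have h1 : Zsqrtd.norm a ∣ a.re * m - a.im * l :=
      ⟨a.re * c - a.im * l * y, by linear_combination a.re * hc' + a.im * l * hxy⟩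
    refine ⟨?_, h1⟩
    refine ⟨a.im * c + x * a.im * 0 + l * (a.re * y + x), ?_⟩
    linear_combination a.im * hc' - l * x * hN - l * a.re * hxy

lemma nu_spec (a : ZI) (h : ct a = 1) (l m : ℤ) :
    a ∣ (⟨l, m⟩ : ZI) ↔ Zsqrtd.norm a ∣ m - nu a * l := by
  have h1 := ex_nu h
  have h2 : nu a = h1.choose := dif_pos h1
  rw [h2]
  exact h1.choose_spec l m

/-! ### the large sieve for points with multiplicities -/

open Pool.Agent.Helper112 (ls_general lsSep lsSep_neg)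

/-- cells which are not adjacent -/
lemma sep_cells {K c c' : ℕ} {z z' : ℝ} (h : c + 2 ≤ c') (h2 : c' + 2 ≤ c + 2 * K)
    (h3 : ((2 * K : ℕ) : ℝ) * Int.fract z < c + 1) (h3' : (c : ℝ) ≤ ((2 * K : ℕ) : ℝ) * Int.fract z)
    (h4 : ((2 * K : ℕ) : ℝ) * Int.fract z' < c' + 1)
    (h4' : (c' : ℝ) ≤ ((2 * K : ℕ) : ℝ) * Int.fract z') :
    lsSep (2 * K) (z' - z) := by
  have hK : (0 : ℝ) < ((2 * K : ℕ) : ℝ) := by exact_mod_cast (by omega : 0 < 2 * K)
  have e1 : ((c + 2 : ℕ) : ℝ) ≤ c' := by exact_mod_cast h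
  have e2 : ((c' + 2 : ℕ) : ℝ) ≤ ((c + 2 * K : ℕ) : ℝ) := by exact_mod_cast h2
  rw [Nat.cast_add, Nat.cast_two] at e1
  rw [Nat.cast_add, Nat.cast_add, Nat.cast_two] at e2
  have h5 : 1 / ((2 * K : ℕ) : ℝ) ≤ Int.fract z' - Int.fract z := by
    rw [div_le_iff₀ hK]
    nlinarith
  have h6 : Int.fract z' - Int.fract z ≤ 1 - 1 / ((2 * K : ℕ) : ℝ) := by
    have : 1 / ((2 * K : ℕ) : ℝ) ≤ 1 - (Int.fract z' - Int.fract z) := by
      rw [div_le_iff₀ hK]
      nlinarith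
    linarith
  have h7 : Int.fract (z' - z) = Int.fract z' - Int.fract z := by
    rw [Int.fract_eq_iff]
    have h8 : 0 < 1 / ((2 * K : ℕ) : ℝ) := by positivity
    refine ⟨by linarith, by linarith, ⌊z'⌋ - ⌊z⌋, ?_⟩
    push_cast
    have h9 := Int.self_sub_floor z
    have h10 := Int.self_sub_floor z'
    linarith
  unfold lsSep
  rw [h7]
  exact ⟨h5, h6⟩

open Classical in
/-- the large sieve for points with at most `C` points in every cell -/
lemma ls_mult {ι : Type*} (R : Finset ι) (ξ : ι → ℝ) (K C N : ℕ) (hK : 1 ≤ K)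
    (hC : ∀ c : ℕ, (R.filter (fun r => ⌊((2 * K : ℕ) : ℝ) * Int.fract (ξ r)⌋₊ = c)).card ≤ C)
    (α : ℕ → ℂ) :
    ∑ r ∈ R, ‖∑ n ∈ Icc 1 N, α n * Pool.Agent.Helper112.ee (n * ξ r)‖ ^ 2 ≤
      2 * C * (6 * ((N : ℝ) + ((2 * K : ℕ) : ℝ)) * ∑ n ∈ Icc 1 N, ‖α n‖ ^ 2) := by
  rcases R.eq_empty_or_nonempty with rfl | ⟨r0, hr0⟩
  · rw [sum_empty]
    positivity
  have : Nonempty ι := ⟨r0⟩
  set f : ι → ℝ := fun r => ‖∑ n ∈ Icc 1 N, α n * Pool.Agent.Helper112.ee (n * ξ r)‖ ^ 2 with hf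
  set B : ℝ := 6 * ((N : ℝ) + ((2 * K : ℕ) : ℝ)) * ∑ n ∈ Icc 1 N, ‖α n‖ ^ 2 with hB
  have hf0 : ∀ r, 0 ≤ f r := fun r => by positivity
  have hK0 : (0 : ℝ) < ((2 * K : ℕ) : ℝ) := by exact_mod_cast (by omega : 0 < 2 * K)
  set cell : ι → ℕ := fun r => ⌊((2 * K : ℕ) : ℝ) * Int.fract (ξ r)⌋₊ with hcell
  have hlt : ∀ r, cell r < 2 * K := by
    intro r
    show ⌊_⌋₊ < _
    rw [Nat.floor_lt (mul_nonneg hK0.le (Int.fract_nonneg _))]
    calc _ < ((2 * K : ℕ) : ℝ) * 1 := mul_lt_mul_of_pos_left (Int.fract_lt_one _) hK0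
      _ = _ := mul_one _
  have hle1 : ∀ r, (cell r : ℝ) ≤ ((2 * K : ℕ) : ℝ) * Int.fract (ξ r) := fun r =>
    Nat.floor_le (mul_nonneg hK0.le (Int.fract_nonneg _))
  have hlt1 : ∀ r, ((2 * K : ℕ) : ℝ) * Int.fract (ξ r) < cell r + 1 := fun r =>
    Nat.lt_floor_add_one _
  -- the nonempty cells
  set T := R.image cell with hT
  have hne : ∀ c ∈ T, ∃ r ∈ R.filter (fun r => cell r = c), ∀ r' ∈ R.filter (fun r => cell r = c),
      f r' ≤ f r := by
    intro c hc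
    rw [hT, mem_image] at hc
    obtain ⟨r, hr, hrc⟩ := hc
    exact exists_max_image _ f ⟨r, mem_filter.2 ⟨hr, hrc⟩⟩
  choose! rep hrep hmax using hne
  have hrep' : ∀ c ∈ T, rep c ∈ R ∧ cell (rep c) = c := fun c hc => mem_filter.1 (hrep c hc)
  have h1 : ∑ r ∈ R, f r ≤ C * ∑ c ∈ T, f (rep c) := by
    rw [← sum_fiberwise_of_maps_to (t := T) (g := cell) (fun r hr => mem_image_of_mem _ hr) f,
      mul_sum]
    refine sum_le_sum fun c hc => ?_
    calc ∑ r ∈ R.filter (fun r => cell r = c), f r ≤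
          ∑ _r ∈ R.filter (fun r => cell r = c), f (rep c) := sum_le_sum fun r hr => hmax c hc r hr
      _ = ((R.filter (fun r => cell r = c)).card : ℝ) * f (rep c) := by
          rw [sum_const, nsmul_eq_mul]
      _ ≤ C * f (rep c) := by
          refine mul_le_mul_of_nonneg_right ?_ (hf0 _)
          exact_mod_cast hC c
  have key : ∀ e : ℕ, ∑ c ∈ T.filter (fun c => c % 2 = e), f (rep c) ≤ B := by
    intro e
    refine ls_general (T.filter (fun c => c % 2 = e)) (fun c => ξ (rep c)) (2 * K) N (by omega) ?_ α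
    intro c hc c' hc' hne
    rw [mem_filter] at hc hc'
    obtain ⟨h5, h6⟩ := hrep' c hc.1
    obtain ⟨h7, h8⟩ := hrep' c' hc'.1
    have h9 := hlt (rep c)
    have h10 := hlt (rep c')
    rw [h6] at h9
    rw [h8] at h10
    have h11 := hle1 (rep c)
    have h12 := hlt1 (rep c)
    have h13 := hle1 (rep c')
    have h14 := hlt1 (rep c')
    rw [h6] at h11 h12
    rw [h8] at h13 h14
    rcases lt_or_gt_of_ne hne with h | h
    · exact sep_cells (by omega) (by omega) h12 h11 h14 h13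
    · have h15 := sep_cells (K := K) (by omega) (by omega) h14 h13 h12 h11
      have h16 := (lsSep_neg (by omega) h15).1
      rwa [neg_sub] at h16
  have h2 : ∑ c ∈ T, f (rep c) ≤ 2 * B := by
    rw [← sum_filter_add_sum_filter_not T (fun c => c % 2 = 0)]
    have h3 := key 0
    have h4 := key 1
    have h5 : T.filter (fun c => ¬ c % 2 = 0) = T.filter (fun c => c % 2 = 1) := by
      apply filter_congr
      intro c _
      omega
    rw [h5]
    linarith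
  calc ∑ r ∈ R, f r ≤ C * ∑ c ∈ T, f (rep c) := h1
    _ ≤ C * (2 * B) := mul_le_mul_of_nonneg_left h2 (Nat.cast_nonneg C)
    _ = _ := by ring

end Pool.Agent.N7.GN.Rls
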