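import Pool.Agent.N7.GN.Rls

/-!
# Project GN: the roots `ν`, the large sieve for the fractions `ν / N(a)`, counting
-/

set_option autoImplicit false

namespace Pool.Agent.N7.GN.Rls

open Finset
open Pool.Agent.N782.GN

/-- the four associated numbers -/
def rot (u : ℕ) (a : ZI) : ZI :=
  if u = 0 then a else if u = 1 then ⟨-a.im, a.re⟩ else if u = 2 then ⟨-a.re, -a.im⟩
  else ⟨a.im, -a.re⟩

lemma rot_inj (u : ℕ) {a b : ZI} (h : rot u a = rot u b) : a = b := by
  unfold rot at h
  split_ifs at h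
  · exact h
  all_goals
    rw [Zsqrtd.ext_iff] at h
    simp only [neg_inj] at h
    apply Zsqrtd.ext
    · first | exact h.1 | exact h.2
    · first | exact h.2 | exact h.1

lemma dvd_rot (u : ℕ) (a : ZI) : a ∣ rot u a := by
  unfold rot
  split_ifs
  · exact dvd_rfl
  · exact ⟨⟨0, 1⟩, by apply Zsqrtd.ext <;> simp [Zsqrtd.re_mul, Zsqrtd.im_mul]⟩
  · exact ⟨-1, by apply Zsqrtd.ext <;> simp⟩
  · exact ⟨⟨0, -1⟩, by apply Zsqrtd.ext <;> simp [Zsqrtd.re_mul, Zsqrtd.im_mul]⟩

lemma rot_norm (u : ℕ) (a : ZI) : (rot u a).re ^ 2 + (rot u a).im ^ 2 = Zsqrtd.norm a := by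
  rw [norm_eq]
  unfold rot
  split_ifs <;> simp only <;> ring

lemma rot_cop (u : ℕ) {a : ZI} (h : ct a = 1) : IsCoprime (rot u a).re (rot u a).im := by
  have hc : IsCoprime a.re a.im := Int.isCoprime_iff_gcd_eq_one.2 h
  unfold rot
  split_ifs
  · exact hc
  · exact hc.symm.neg_left
  · exact hc.neg_neg
  · exact hc.symm.neg_right

lemma canon {a : ZI} (h : ct a = 1) :
    ∃ u : ℕ, u < 4 ∧ 0 < (rot u a).re ∧ |(rot u a).im| ≤ (rot u a).re := by
  have h0 : ¬ (a.re = 0 ∧ a.im = 0) := by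
    rintro ⟨h1, h2⟩
    unfold ct at h
    rw [h1, h2] at h
    simp at h
  by_cases h1 : |a.im| ≤ |a.re|
  · rcases lt_trichotomy a.re 0 with h2 | h2 | h2
    · refine ⟨2, by norm_num, ?_, ?_⟩
      · show 0 < (rot 2 a).re
        simp only [rot]
        norm_num
        exact h2
      · simp only [rot]
        norm_num
        rw [abs_of_neg h2] at h1
        exact h1
    · rw [h2, abs_zero] at h1
      exact absurd ⟨h2, abs_nonpos_iff.1 h1⟩ h0
    · refine ⟨0, by norm_num, ?_, ?_⟩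
      · simp only [rot]
        exact h2
      · simp only [rot]
        rw [abs_of_pos h2] at h1
        exact h1
  · push Not at h1
    rcases lt_trichotomy a.im 0 with h2 | h2 | h2
    · refine ⟨1, by norm_num, ?_, ?_⟩
      · simp only [rot]
        norm_num
        exact h2
      · simp only [rot]
        norm_num
        rw [abs_of_neg h2] at h1
        exact h1.le
    · rw [h2, abs_zero] at h1
      exact absurd h1 (not_lt.2 (abs_nonneg _))
    · refine ⟨3, by norm_num, ?_, ?_⟩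
      · simp only [rot]
        norm_num
        exact h2
      · simp only [rot]
        norm_num
        rw [abs_of_pos h2] at h1
        exact h1.le

lemma data (a : ZI) (h : ct a = 1) : ∃ (u : ℕ) (r s k : ℤ), u < 4 ∧ rot u a = ⟨r, s⟩ ∧ 0 < r ∧
    |s| ≤ r ∧ r ^ 2 + s ^ 2 = Zsqrtd.norm a ∧
    (nu a % Zsqrtd.norm a) * r - s = Zsqrtd.norm a * k ∧ IsCoprime k r ∧ r ∣ s * k + 1 := by
  obtain ⟨u, hu, h1, h2⟩ := canon h
  have h3 := rot_norm u a
  have h4 := rot_cop u h
  have h5 : a ∣ rot u a := dvd_rot u a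
  set r := (rot u a).re with hr
  set s := (rot u a).im with hs
  have h6 : rot u a = ⟨r, s⟩ := rfl
  rw [h6, nu_spec a h] at h5
  obtain ⟨q, hq⟩ := h5
  have h7 := Int.emod_add_mul_ediv (nu a) (Zsqrtd.norm a)
  set N := Zsqrtd.norm a with hN
  set k : ℤ := -q - (nu a / N) * r with hk
  have h8 : (nu a % N) * r - s = N * k := by
    rw [hk]
    linear_combination r * h7 - hq
  have h9 : r ∣ s * k + 1 := by
    have h10 : r ∣ s * (s * k + 1) := by
      refine ⟨nu a % N - r * k, ?_⟩
      linear_combination -h8 + k * h3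
    exact h4.dvd_of_dvd_mul_left h10
  refine ⟨u, r, s, k, hu, h6, h1, h2, h3, h8, ?_, h9⟩
  obtain ⟨c, hc⟩ := h9
  exact ⟨-s, c, by linear_combination -hc⟩

lemma fract_eq {a : ZI} (h : ct a = 1) :
    Int.fract ((nu a : ℝ) / nz a) = ((nu a % Zsqrtd.norm a : ℤ) : ℝ) / nz a := by
  have hN := norm_pos h
  have hN' : (0 : ℝ) < nz a := by
    unfold nz
    exact_mod_cast hN
  rw [Int.fract_eq_iff]
  refine ⟨?_, ?_, nu a / Zsqrtd.norm a, ?_⟩
  · refine div_nonneg ?_ hN'.le
    exact_mod_cast Int.emod_nonneg _ hN.ne'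
  · rw [div_lt_one hN']
    unfold nz
    exact_mod_cast Int.emod_lt_of_pos _ hN
  · have h1 := Int.emod_add_mul_ediv (nu a) (Zsqrtd.norm a)
    have h2 : (nu a : ℝ) = ((nu a % Zsqrtd.norm a : ℤ) : ℝ) + nz a * ((nu a / Zsqrtd.norm a : ℤ) : ℝ) := by
      unfold nz
      exact_mod_cast h1.symm
    field_simp
    rw [h2]
    ring

open Classical in
lemma count (P : ℕ) (hP : 1 ≤ P) (R : Finset ZI)
    (hR : ∀ a ∈ R, ct a = 1 ∧ (P : ℝ) ≤ nz a ∧ nz a < 2 * P) (c : ℕ) :
    (R.filter (fun a => ⌊((2 * P : ℕ) : ℝ) * Int.fract ((nu a : ℝ) / nz a)⌋₊ = c)).card ≤ 72 := by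
  set T := R.filter (fun a => ⌊((2 * P : ℕ) : ℝ) * Int.fract ((nu a : ℝ) / nz a)⌋₊ = c) with hT
  have hPr : (1 : ℝ) ≤ P := by exact_mod_cast hP
  have hd : ∀ a : ZI, ∃ (u : ℕ) (r s k : ℤ), ct a = 1 → u < 4 ∧ rot u a = ⟨r, s⟩ ∧ 0 < r ∧
      |s| ≤ r ∧ r ^ 2 + s ^ 2 = Zsqrtd.norm a ∧
      (nu a % Zsqrtd.norm a) * r - s = Zsqrtd.norm a * k ∧ IsCoprime k r ∧ r ∣ s * k + 1 := by
    intro a
    by_cases h : ct a = 1
    · obtain ⟨u, r, s, k, h1⟩ := data a h
      exact ⟨u, r, s, k, fun _ => h1⟩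
    · exact ⟨0, 0, 0, 0, fun h' => absurd h' h⟩
  choose u r s k hurk using hd
  -- the fraction
  have hx : ∀ a ∈ T, ct a = 1 ∧ 0 ≤ 2 * (P : ℝ) * ((k a : ℝ) / r a) - c + 2 ∧
      2 * (P : ℝ) * ((k a : ℝ) / r a) - c + 2 < 5 ∧ (r a : ℝ) ^ 2 < 2 * P := by
    intro a ha
    rw [hT, mem_filter] at ha
    obtain ⟨haR, hac⟩ := ha
    obtain ⟨h1, h2, h3⟩ := hR a haR
    obtain ⟨-, -, h4, h5, h6, h7, -, -⟩ := hurk a h1
    have hfr := fract_eq h1
    have hN : (0 : ℝ) < nz a := by linarith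
    have hr0 : (0 : ℝ) < r a := by exact_mod_cast h4
    have e1 : ((nu a % Zsqrtd.norm a : ℤ) : ℝ) * r a - s a = nz a * k a := by
      unfold nz
      exact_mod_cast h7
    have e2 : (k a : ℝ) / r a = Int.fract ((nu a : ℝ) / nz a) - (s a : ℝ) / (r a * nz a) := by
      rw [hfr]
      field_simp
      linarith
    have e3 : |(s a : ℝ) / (r a * nz a)| ≤ 1 / P := by
      rw [abs_div, abs_of_pos (mul_pos hr0 hN)]
      have h8 : |(s a : ℝ)| ≤ r a := by exact_mod_cast h5
      calc |(s a : ℝ)| / (r a * nz a) ≤ r a / (r a * nz a) :=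
            div_le_div_of_nonneg_right h8 (by positivity)
        _ = 1 / nz a := by field_simp
        _ ≤ 1 / P := one_div_le_one_div_of_le (by linarith) h2
    have e4 : 2 * (P : ℝ) * ((s a : ℝ) / (r a * nz a)) ≤ 2 ∧
        -2 ≤ 2 * (P : ℝ) * ((s a : ℝ) / (r a * nz a)) := by
      rw [abs_le] at e3
      have hP0 : (0 : ℝ) < 2 * P := by linarith
      have h9 : 2 * (P : ℝ) * (1 / P) = 2 := by field_simp
      constructor
      · calc _ ≤ 2 * (P : ℝ) * (1 / P) := mul_le_mul_of_nonneg_left e3.2 hP0.le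
          _ = 2 := h9
      · calc (-2 : ℝ) = 2 * (P : ℝ) * (-(1 / P)) := by rw [mul_neg, h9]
          _ ≤ _ := mul_le_mul_of_nonneg_left e3.1 hP0.le
    have e5 : (c : ℝ) ≤ 2 * (P : ℝ) * Int.fract ((nu a : ℝ) / nz a) := by
      rw [← hac]
      have := Nat.floor_le (a := ((2 * P : ℕ) : ℝ) * Int.fract ((nu a : ℝ) / nz a))
        (mul_nonneg (Nat.cast_nonneg _) (Int.fract_nonneg _))
      push_cast at this ⊢
      exact this
    have e6 : 2 * (P : ℝ) * Int.fract ((nu a : ℝ) / nz a) < c + 1 := by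
      rw [← hac]
      have := Nat.lt_floor_add_one (((2 * P : ℕ) : ℝ) * Int.fract ((nu a : ℝ) / nz a))
      push_cast at this ⊢
      exact this
    refine ⟨h1, ?_, ?_, ?_⟩
    · rw [e2, mul_sub]
      linarith
    · rw [e2, mul_sub]
      linarith
    · have h8 : (r a : ℝ) ^ 2 + (s a : ℝ) ^ 2 = nz a := by
        unfold nz
        exact_mod_cast h6
      nlinarith [sq_nonneg (s a : ℝ)]
  have hcard : (range 4 ×ˢ (range 5 ×ˢ range 3)).card = 60 := by
    rw [card_product, card_product, card_range, card_range, card_range]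
  have hmain : T.card ≤ (range 4 ×ˢ (range 5 ×ˢ range 3)).card := by
    refine card_le_card_of_injOn
      (fun a => (u a, ⌊2 * (P : ℝ) * ((k a : ℝ) / r a) - c + 2⌋₊, ((s a + r a) / r a).toNat)) ?_ ?_
    · intro a ha
      obtain ⟨h1, h2, h3, -⟩ := hx a ha
      obtain ⟨h0, -, h4, h5, -, -, -, -⟩ := hurk a h1
      rw [mem_coe, mem_product, mem_product, mem_range, mem_range, mem_range]
      refine ⟨h0, ?_, ?_⟩
      · show ⌊_⌋₊ < 5
        rw [Nat.floor_lt h2]
        exact_mod_cast h3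
      · show ((s a + r a) / r a).toNat < 3
        rw [abs_le] at h5
        have h6 : (s a + r a) / r a ≤ 2 := by
          rw [Int.ediv_le_iff_le_mul h4]
          linarith
        omega
    · intro a ha b hb hab
      simp only [Prod.mk.injEq] at hab
      obtain ⟨hu, hq, hv⟩ := hab
      obtain ⟨ha1, ha2, ha3, ha4⟩ := hx a ha
      obtain ⟨hb1, hb2, hb3, hb4⟩ := hx b hb
      obtain ⟨-, ra, ha5, ha6, ha7, -, ha8, ha9⟩ := hurk a ha1
      obtain ⟨-, rb, hb5, hb6, hb7, -, hb8, hb9⟩ := hurk b hb1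
      have hra : (0 : ℝ) < r a := by exact_mod_cast ha5
      have hrb : (0 : ℝ) < r b := by exact_mod_cast hb5
      -- the fractions are equal
      have e1 := Nat.floor_le ha2
      have e2 := Nat.lt_floor_add_one (2 * (P : ℝ) * ((k a : ℝ) / r a) - c + 2)
      have e3 := Nat.floor_le hb2
      have e4 := Nat.lt_floor_add_one (2 * (P : ℝ) * ((k b : ℝ) / r b) - c + 2)
      rw [← hq] at e3 e4
      have e5 : |(k a : ℝ) / r a - (k b : ℝ) / r b| * (2 * P) < 1 := by
        have h2P : (0 : ℝ) < 2 * P := by linarith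
        rw [← abs_of_pos h2P, ← abs_mul, abs_lt]
        constructor <;> nlinarith
      have e6 : (r a : ℝ) * r b < 2 * P := by nlinarith [sq_nonneg ((r a : ℝ) - r b)]
      have e7 : |(k a : ℝ) * r b - k b * r a| < 1 := by
        have h10 : (k a : ℝ) * r b - k b * r a = ((k a : ℝ) / r a - (k b : ℝ) / r b) * (r a * r b) := by
          field_simp
        rw [h10, abs_mul, abs_of_pos (mul_pos hra hrb)]
        refine lt_of_le_of_lt (mul_le_mul_of_nonneg_left e6.le (abs_nonneg _)) e5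
      have e8 : k a * r b = k b * r a := by
        have h10 : |k a * r b - k b * r a| < 1 := by exact_mod_cast e7
        have h11 := Int.abs_lt_one_iff.1 h10
        linarith
      have hrr : r a = r b := by
        have h10 : r a ∣ r b := by
          apply ha8.symm.dvd_of_dvd_mul_left
          exact ⟨k b, by linarith⟩
        have h11 : r b ∣ r a := by
          apply hb8.symm.dvd_of_dvd_mul_left
          exact ⟨k a, by linarith⟩
        exact Int.dvd_antisymm ha5.le hb5.le h10 h11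
      have hkk : k a = k b := by
        rw [hrr] at e8
        exact mul_right_cancel₀ hb5.ne' e8
      have hss : s a = s b := by
        have h10 : r a ∣ s a - s b := by
          obtain ⟨x, hx⟩ := ha9
          obtain ⟨y, hy⟩ := hb9
          rw [← hrr, ← hkk] at hy
          have h11 : r a ∣ (s a - s b) * k a := ⟨x - y, by linear_combination hx - hy⟩
          exact ha8.symm.dvd_of_dvd_mul_right h11
        obtain ⟨q, hq'⟩ := h10
        have h12 : (s a + r a) / r a = (s b + r a) / r a + q := by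
          have : s a + r a = (s b + r a) + r a * q := by linarith
          rw [this, Int.add_mul_ediv_left _ _ ha5.ne']
        rw [← hrr] at hv
        rw [abs_le] at ha6 hb6
        have h13 : 0 ≤ (s a + r a) / r a := Int.ediv_nonneg (by linarith) ha5.le
        have h14 : 0 ≤ (s b + r a) / r a := Int.ediv_nonneg (by rw [hrr]; linarith) ha5.le
        have h15 : q = 0 := by omega
        rw [h15, mul_zero] at hq'
        linarith
      have h16 : rot (u a) a = rot (u a) b := by
        rw [ra, hu, rb, hrr, hss]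
      exact rot_inj _ h16
  omega

end Pool.Agent.N7.GN.Rls
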