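import Pool.Agent.N7.GN.Rls2

/-!
# Project GN: the roots `ν` and the large sieve for the fractions `ν / N(a)` (S_RLS)
-/

set_option autoImplicit false

namespace Pool.Agent.N7.GN.Rls

open Finset
open Pool.Agent.N782.GN

lemma ee_eq (x : ℝ) : ee x = Pool.Agent.Helper112.ee x := by
  unfold ee Pool.Agent.Helper112.ee
  congr 1
  ring

lemma sum_shift {M : Type*} [AddCommMonoid M] (N : ℕ) (f : ℤ → M) :
    ∑ n ∈ Icc (-(N : ℤ)) N, f n = ∑ m ∈ Icc 1 (2 * N + 1), f ((m : ℤ) - N - 1) := by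
  symm
  refine sum_bij (fun m _ => (m : ℤ) - N - 1) ?_ ?_ ?_ ?_
  · intro m hm
    rw [mem_Icc] at hm ⊢
    omega
  · intro m _ m' _ h
    omega
  · intro l hl
    rw [mem_Icc] at hl
    refine ⟨(l + N + 1).toNat, ?_, ?_⟩
    · rw [mem_Icc]
      omega
    · rw [Int.toNat_of_nonneg (by omega)]
      ring
  · intro m _
    rfl

lemma shiftZ (N : ℕ) (α : ℤ → ℂ) (x y : ℝ) :
    ‖∑ n ∈ Icc (-(N : ℤ)) N, α n * ee (n * x / y)‖ =
      ‖∑ m ∈ Icc 1 (2 * N + 1), α ((m : ℤ) - N - 1) * Pool.Agent.Helper112.ee (m * (x / y))‖ := by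
  rw [sum_shift N (fun n => α n * ee (n * x / y))]
  have h2 : ∑ m ∈ Icc 1 (2 * N + 1), α ((m : ℤ) - N - 1) * ee ((((m : ℤ) - N - 1 : ℤ) : ℝ) * x / y) =
      Pool.Agent.Helper112.ee ((-(N : ℝ) - 1) * (x / y)) *
        ∑ m ∈ Icc 1 (2 * N + 1), α ((m : ℤ) - N - 1) * Pool.Agent.Helper112.ee (m * (x / y)) := by
    rw [mul_sum]
    refine sum_congr rfl fun m _ => ?_
    have e : ((((m : ℤ) - N - 1 : ℤ) : ℝ) * x / y : ℝ) =
        (-(N : ℝ) - 1) * (x / y) + m * (x / y) := by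
      push_cast
      ring
    rw [ee_eq, e, Pool.Agent.Helper112.ls_ee_add]
    ring
  rw [h2, norm_mul, Pool.Agent.Helper112.ls_norm_ee, one_mul]

lemma block (P : ℕ) (hP : 1 ≤ P) (R : Finset ZI)
    (hR : ∀ a ∈ R, ct a = 1 ∧ (P : ℝ) ≤ nz a ∧ nz a < 2 * P) (N : ℕ) (α : ℤ → ℂ) :
    ∑ a ∈ R, ‖∑ n ∈ Icc (-(N : ℤ)) N, α n * ee (n * nu a / nz a)‖ ^ 2 ≤
      864 * ((2 * N + 1) + 2 * P) * ∑ n ∈ Icc (-(N : ℤ)) N, ‖α n‖ ^ 2 := by
  have h1 := ls_mult R (fun a => (nu a : ℝ) / nz a) P 72 (2 * N + 1) hP (count P hP R hR)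
    (fun m => α ((m : ℤ) - N - 1))
  have h2 : ∑ a ∈ R, ‖∑ n ∈ Icc (-(N : ℤ)) N, α n * ee (n * nu a / nz a)‖ ^ 2 =
      ∑ r ∈ R, ‖∑ n ∈ Icc 1 (2 * N + 1), α ((n : ℤ) - N - 1) *
        Pool.Agent.Helper112.ee (n * ((nu r : ℝ) / nz r))‖ ^ 2 := by
    refine sum_congr rfl fun a _ => ?_
    rw [shiftZ]
  rw [h2, sum_shift N (fun n => ‖α n‖ ^ 2)]
  refine h1.trans (le_of_eq ?_)
  push_cast
  ring

theorem rls : S_RLS := by
  classical
  refine ⟨fun a h l m => nu_spec a h l m, 7776, by norm_num, fun D N α hD hN => ?_⟩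
  set A : ℝ := ∑ n ∈ Icc (-(N : ℤ)) N, ‖α n‖ ^ 2 with hA
  have hA0 : 0 ≤ A := sum_nonneg fun _ _ => sq_nonneg _
  have hN' : (1 : ℝ) ≤ N := by exact_mod_cast hN
  set L := Nat.log 2 ⌊D⌋₊ with hL
  have hD0 : ⌊D⌋₊ ≠ 0 := by
    have : 1 ≤ ⌊D⌋₊ := Nat.le_floor (by exact_mod_cast hD)
    omega
  have hDf : ((⌊D⌋₊ : ℕ) : ℝ) ≤ D := Nat.floor_le (by linarith)
  set R := (bl D).filter (fun a => ct a = 1) with hRdef
  have hnn : ∀ a : ZI, ct a = 1 → ((Zsqrtd.norm a).toNat : ℝ) = nz a ∧ (Zsqrtd.norm a).toNat ≠ 0 := by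
    intro a ha
    have h1 := norm_pos ha
    constructor
    · unfold nz
      have h2 : (((Zsqrtd.norm a).toNat : ℤ) : ℝ) = ((Zsqrtd.norm a : ℤ) : ℝ) := by
        rw [Int.toNat_of_nonneg h1.le]
      exact_mod_cast h2
    · omega
  have hmaps : ∀ a ∈ R, Nat.log 2 (Zsqrtd.norm a).toNat ∈ range (L + 1) := by
    intro a ha
    rw [hRdef, mem_filter, mem_bl] at ha
    obtain ⟨h1, h2⟩ := hnn a ha.2
    rw [mem_range, Nat.lt_succ_iff]
    apply Nat.log_mono_right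
    apply Nat.le_floor
    rw [h1]
    exact ha.1.2
  rw [← sum_fiberwise_of_maps_to hmaps]
  have hblock : ∀ j ∈ range (L + 1),
      ∑ a ∈ R.filter (fun a => Nat.log 2 (Zsqrtd.norm a).toNat = j),
        ‖∑ n ∈ Icc (-(N : ℤ)) N, α n * ee (n * nu a / nz a)‖ ^ 2 ≤ 2592 * (D + N) * A := by
    intro j hj
    rw [mem_range, Nat.lt_succ_iff] at hj
    have h1 := block (2 ^ j) Nat.one_le_two_pow
      (R.filter (fun a => Nat.log 2 (Zsqrtd.norm a).toNat = j)) ?_ N α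
    · refine h1.trans ?_
      have h2 : ((2 ^ j : ℕ) : ℝ) ≤ D := by
        refine le_trans ?_ hDf
        have h3 : 2 ^ j ≤ 2 ^ L := Nat.pow_le_pow_right (by norm_num) hj
        have h4 : 2 ^ L ≤ ⌊D⌋₊ := Nat.pow_log_le_self 2 hD0
        exact_mod_cast h3.trans h4
      rw [← hA]
      refine mul_le_mul_of_nonneg_right ?_ hA0
      linarith
    · intro a ha
      rw [mem_filter, hRdef, mem_filter] at ha
      obtain ⟨⟨-, h2⟩, h3⟩ := ha
      obtain ⟨h4, h5⟩ := hnn a h2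
      have h6 : 2 ^ j ≤ (Zsqrtd.norm a).toNat := by
        rw [← h3]
        exact Nat.pow_log_le_self 2 h5
      have h7 : (Zsqrtd.norm a).toNat < 2 ^ (j + 1) := by
        rw [← h3]
        exact Nat.lt_pow_succ_log_self (by norm_num) _
      refine ⟨h2, ?_, ?_⟩
      · rw [← h4]
        exact_mod_cast h6
      · rw [← h4]
        rw [pow_succ, mul_comm] at h7
        exact_mod_cast h7
  have hlog1 : 1 ≤ Real.log (D + 2) := by
    rw [Real.le_log_iff_exp_le (by linarith)]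
    have := Real.exp_one_lt_d9
    linarith
  have hLlog : (L : ℝ) + 1 ≤ 3 * Real.log (D + 2) := by
    have h1 : ((2 : ℝ) ^ L) ≤ D + 2 := by
      have h4 : 2 ^ L ≤ ⌊D⌋₊ := Nat.pow_log_le_self 2 hD0
      have h5 : ((2 : ℝ) ^ L) ≤ ((⌊D⌋₊ : ℕ) : ℝ) := by exact_mod_cast h4
      linarith
    have h2 := Real.log_le_log (by positivity) h1
    rw [Real.log_pow] at h2
    have h3 := Real.log_two_gt_d9
    have hL0 : (0 : ℝ) ≤ L := Nat.cast_nonneg L
    nlinarith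
  calc _ ≤ ∑ _j ∈ range (L + 1), 2592 * (D + N) * A := sum_le_sum hblock
    _ = ((L : ℝ) + 1) * (2592 * (D + N) * A) := by
        rw [sum_const, card_range, nsmul_eq_mul]
        push_cast
        ring
    _ ≤ (3 * Real.log (D + 2)) * (2592 * (D + N) * A) := by
        refine mul_le_mul_of_nonneg_right hLlog (by positivity)
    _ = _ := by ring

end Pool.Agent.N7.GN.Rls
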